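import Mathlib

/-!
Definitions for the problem on Chernoff's factor function `g` and hyperbolic complete
monotonicity.
-/

open MeasureTheory Set

namespace Pool.Agent.Work.MP_b46d52_pr

/-- Maclaurin coefficients of the Airy function: `Ai(0) = 3^(-2/3)/Γ(2/3)`,
`Ai'(0) = -3^(-1/3)/Γ(1/3)`, `Ai''(0) = 0`, and the recursion
`(n+3)(n+2) a_{n+3} = a_n` equivalent to the Airy equation `Ai'' = z Ai`. -/
noncomputable def airyCoeff : ℕ → ℝ
  | 0 => 1 / ((3 : ℝ) ^ (2 / 3 : ℝ) * Real.Gamma (2 / 3))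
  | 1 => -(1 / ((3 : ℝ) ^ (1 / 3 : ℝ) * Real.Gamma (1 / 3)))
  | 2 => 0
  | n + 3 => airyCoeff n / (((n : ℝ) + 3) * ((n : ℝ) + 2))

/-- The Airy function `Ai`, an entire function, defined by its Maclaurin series. -/
noncomputable def Ai (z : ℂ) : ℂ := ∑' n : ℕ, (airyCoeff n : ℂ) * z ^ n

/-- `g : ℝ → (0, ∞)` is integrable and its Fourier transform is
`∫ e^{iλs} g(s) ds = 2^{1/3} / Ai(i 2^{-1/3} λ)`: this is the defining property of the factor
function `g` of Chernoff's density. -/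
structure IsChernoffFactor (g : ℝ → ℝ) : Prop where
  pos : ∀ s, 0 < g s
  integrable : Integrable g
  fourier : ∀ l : ℝ, ∫ s : ℝ, Complex.exp (Complex.I * l * s) * (g s : ℂ) =
    (((2 : ℝ) ^ (1 / 3 : ℝ) : ℝ) : ℂ) / Ai (Complex.I * ((2 : ℝ) ^ (-(1 / 3) : ℝ) : ℝ) * l)

/-- `F` is completely monotone on `(2, ∞)`. -/
def CompletelyMonotone (F : ℝ → ℝ) : Prop :=
  ContDiffOn ℝ (⊤ : ℕ∞) F (Ioi 2) ∧ ∀ n : ℕ, ∀ w ∈ Ioi (2 : ℝ), 0 ≤ (-1) ^ n * iteratedDeriv n F w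

/-- The class `HM_∞` of hyperbolically completely monotone functions on `(0, ∞)`: for every
`u > 0` the function `v ↦ p(uv) p(u/v)` is a completely monotone function of
`w = v + 1/v ∈ (2, ∞)`. -/
def HM (p : ℝ → ℝ) : Prop :=
  (∀ x : ℝ, 0 < x → 0 ≤ p x) ∧
  ∀ u : ℝ, 0 < u → ∃ F : ℝ → ℝ, CompletelyMonotone F ∧
    ∀ v : ℝ, 0 < v → F (v + 1 / v) = p (u * v) * p (u / v)

/-- The weaker property in which only the signs of the function and of its first two derivatives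
are prescribed: for every `u > 0` the function `v ↦ p(uv) p(u/v)` is a nonincreasing and convex
function of `w = v + 1/v ∈ (2, ∞)`. -/
def HM2 (p : ℝ → ℝ) : Prop :=
  (∀ x : ℝ, 0 < x → 0 ≤ p x) ∧
  ∀ u : ℝ, 0 < u → ∃ F : ℝ → ℝ, AntitoneOn F (Ioi 2) ∧ ConvexOn ℝ (Ioi 2) F ∧
    ∀ v : ℝ, 0 < v → F (v + 1 / v) = p (u * v) * p (u / v)

/-- `k ∈ log(HM_∞)`: `k ≥ 0` is integrable with positive integral and `x ↦ k(log x)/x` lies in
`HM_∞`. -/
def LogHM (k : ℝ → ℝ) : Prop :=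
  (∀ s, 0 ≤ k s) ∧ Integrable k ∧ 0 < ∫ s, k s ∧ HM (fun x => k (Real.log x) / x)

end Pool.Agent.Work.MP_b46d52_pr
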