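import Mathlib
import Pool.Agent.Work.MP_b46d52_pr.Defs

/-!
Power series with rapidly decreasing coefficients, and the Airy equation.
-/

open MeasureTheory Set Filter Topology

namespace Pool.Agent.Work.MP_b46d52_pr

section PowerSeries

variable {𝕜 : Type*} [RCLike 𝕜]

/-- The coefficient sequence is `O(r^{-n})` for every `r`. -/
def Rapid (c : ℕ → 𝕜) : Prop := ∀ r : ℝ, 0 < r → ∃ K : ℝ, ∀ n, ‖c n‖ * r ^ n ≤ K

/-- Sum of the power series. -/
noncomputable def ps (c : ℕ → 𝕜) (x : 𝕜) : 𝕜 := ∑' n : ℕ, c n * x ^ n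

/-- Formal derivative. -/
def dcoef (c : ℕ → 𝕜) (n : ℕ) : 𝕜 := ((n : 𝕜) + 1) * c (n + 1)

lemma Rapid.summable_mul {c : ℕ → 𝕜} (hc : Rapid c) {r : ℝ} (hr : 0 ≤ r) :
    Summable fun n : ℕ => (n : ℝ) * (‖c n‖ * r ^ n) := by
  obtain ⟨K, hK⟩ := hc (2 * r + 1) (by linarith)
  have hK0 : 0 ≤ K := le_trans (by positivity) (hK 0)
  have h1 : Summable fun n : ℕ => (n : ℝ) ^ 1 * (r / (2 * r + 1)) ^ n := by
    apply summable_pow_mul_geometric_of_norm_lt_one
    rw [Real.norm_eq_abs, abs_of_nonneg (by positivity), div_lt_one (by linarith)]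
    linarith
  have h2 := h1.mul_left K
  refine Summable.of_nonneg_of_le (fun n => by positivity) (fun n => ?_) h2
  have h3 : ‖c n‖ * r ^ n = (‖c n‖ * (2 * r + 1) ^ n) * (r / (2 * r + 1)) ^ n := by
    rw [div_pow]; field_simp
  rw [h3]
  have h4 : (‖c n‖ * (2 * r + 1) ^ n) * (r / (2 * r + 1)) ^ n ≤ K * (r / (2 * r + 1)) ^ n :=
    mul_le_mul_of_nonneg_right (hK n) (by positivity)
  calc (n : ℝ) * ((‖c n‖ * (2 * r + 1) ^ n) * (r / (2 * r + 1)) ^ n)
      ≤ (n : ℝ) * (K * (r / (2 * r + 1)) ^ n) := by gcongr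
    _ = K * ((n : ℝ) ^ 1 * (r / (2 * r + 1)) ^ n) := by ring

lemma Rapid.summable {c : ℕ → 𝕜} (hc : Rapid c) (x : 𝕜) : Summable fun n : ℕ => c n * x ^ n := by
  have h := hc.summable_mul (r := ‖x‖) (norm_nonneg x)
  apply Summable.of_norm
  have h' : Summable fun n : ℕ => ((n + 1 : ℕ) : ℝ) * (‖c (n + 1)‖ * ‖x‖ ^ (n + 1)) :=
    (summable_nat_add_iff 1).2 h
  refine (summable_nat_add_iff 1).1 ?_
  refine Summable.of_nonneg_of_le (fun n => norm_nonneg _) (fun n => ?_) h'
  rw [norm_mul, norm_pow]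
  have h1 : (1 : ℝ) ≤ ((n + 1 : ℕ) : ℝ) := by push_cast; linarith [Nat.cast_nonneg (α := ℝ) n]
  nlinarith [mul_nonneg (norm_nonneg (c (n + 1))) (pow_nonneg (norm_nonneg x) (n + 1))]

lemma Rapid.dcoef {c : ℕ → 𝕜} (hc : Rapid c) : Rapid (dcoef c) := by
  intro r hr
  have h := hc.summable_mul (r := r) hr.le
  obtain ⟨K, hK⟩ := h.tendsto_atTop_zero.bddAbove_range
  refine ⟨K / r, fun n => ?_⟩
  have h1 : ((n + 1 : ℕ) : ℝ) * (‖c (n + 1)‖ * r ^ (n + 1)) ≤ K := hK ⟨n + 1, rfl⟩
  rw [le_div_iff₀ hr]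
  have h2 : ‖MP_b46d52_pr.dcoef c n‖ = ((n + 1 : ℕ) : ℝ) * ‖c (n + 1)‖ := by
    unfold MP_b46d52_pr.dcoef
    rw [norm_mul]
    congr 1
    have : ((n : 𝕜) + 1) = ((n + 1 : ℕ) : 𝕜) := by push_cast; rfl
    rw [this, RCLike.norm_natCast]
  rw [h2]
  calc _ = ((n + 1 : ℕ) : ℝ) * (‖c (n + 1)‖ * r ^ (n + 1)) := by ring
    _ ≤ K := h1

lemma Rapid.hasDerivAt {c : ℕ → 𝕜} (hc : Rapid c) (x : 𝕜) :
    HasDerivAt (ps c) (ps (MP_b46d52_pr.dcoef c) x) x := by
  set R : ℝ := ‖x‖ + 1 with hR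
  have hR0 : 0 < R := by have := norm_nonneg x; linarith
  have hs := hc.summable_mul (r := R) hR0.le
  have hs' : Summable fun n : ℕ => (1 / R) * ((n : ℝ) * (‖c n‖ * R ^ n)) := hs.mul_left _
  have key := hasDerivAt_tsum_of_isPreconnected (𝕜 := 𝕜) (F := 𝕜)
    (g := fun n y => c n * y ^ n) (g' := fun n y => c n * (n * y ^ (n - 1)))
    (t := Metric.ball (0 : 𝕜) R) (y₀ := 0) (y := x) hs' Metric.isOpen_ball
    ((convex_ball (0 : 𝕜) R).isPreconnected)
    (fun n y _ => ((hasDerivAt_pow n y).const_mul (c n))) ?_ ?_ (hc.summable 0) ?_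
  · refine key.congr_deriv ?_
    have hsum : Summable fun n : ℕ => c n * (n * x ^ (n - 1)) := by
      apply Summable.of_norm
      refine Summable.of_nonneg_of_le (fun n => norm_nonneg _) (fun n => ?_) hs'
      rcases Nat.eq_zero_or_pos n with rfl | hn
      · simp
      · rw [norm_mul, norm_mul, norm_pow, RCLike.norm_natCast]
        have h1 : ‖x‖ ^ (n - 1) ≤ R ^ (n - 1) := by
          apply pow_le_pow_left₀ (norm_nonneg x); linarith
        have h2 : R ^ n = R * R ^ (n - 1) := by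
          rw [← pow_succ']; congr 1; omega
        rw [h2]
        calc ‖c n‖ * ((n : ℝ) * ‖x‖ ^ (n - 1)) ≤ ‖c n‖ * ((n : ℝ) * R ^ (n - 1)) := by gcongr
          _ = 1 / R * ((n : ℝ) * (‖c n‖ * (R * R ^ (n - 1)))) := by field_simp
    rw [hsum.tsum_eq_zero_add]
    unfold ps
    simp only [Nat.cast_zero, zero_mul, mul_zero, zero_add, Nat.add_sub_cancel]
    apply tsum_congr
    intro n
    unfold MP_b46d52_pr.dcoef
    push_cast
    ring
  · intro n y hy
    rw [mem_ball_zero_iff] at hy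
    rcases Nat.eq_zero_or_pos n with rfl | hn
    · simp
    · rw [norm_mul, norm_mul, norm_pow, RCLike.norm_natCast]
      have h1 : ‖y‖ ^ (n - 1) ≤ R ^ (n - 1) := by
        apply pow_le_pow_left₀ (norm_nonneg y) hy.le
      have h2 : R ^ n = R * R ^ (n - 1) := by
        rw [← pow_succ']; congr 1; omega
      rw [h2]
      calc ‖c n‖ * ((n : ℝ) * ‖y‖ ^ (n - 1)) ≤ ‖c n‖ * ((n : ℝ) * R ^ (n - 1)) := by gcongr
        _ = 1 / R * ((n : ℝ) * (‖c n‖ * (R * R ^ (n - 1)))) := by field_simp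
  · simpa using hR0
  · rw [mem_ball_zero_iff]; linarith

end PowerSeries

/-! ### The Airy coefficients -/

lemma airyCoeff_rapid : Rapid airyCoeff := by
  intro r hr
  obtain ⟨N, hN⟩ := exists_nat_gt (r ^ 3)
  -- bound on the first terms
  set K : ℝ := ∑ n ∈ Finset.range (N + 3), ‖airyCoeff n‖ * r ^ n with hK
  have hK0 : 0 ≤ K := Finset.sum_nonneg fun n _ => by positivity
  refine ⟨K, fun n => ?_⟩
  induction n using Nat.strong_induction_on with
  | _ n ih =>
    by_cases hn : n < N + 3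
    · exact Finset.single_le_sum (f := fun n => ‖airyCoeff n‖ * r ^ n)
        (fun i _ => by positivity) (Finset.mem_range.2 hn)
    · obtain ⟨m, rfl⟩ : ∃ m, n = m + 3 := ⟨n - 3, by omega⟩
      have hmN : N ≤ m := by omega
      have h1 := ih m (by omega)
      have h2 : airyCoeff (m + 3) = airyCoeff m / (((m : ℝ) + 3) * ((m : ℝ) + 2)) := rfl
      rw [h2, norm_div, Real.norm_of_nonneg (by positivity : (0 : ℝ) ≤ ((m : ℝ) + 3) * ((m : ℝ) + 2))]
      have h3 : r ^ 3 ≤ ((m : ℝ) + 3) * ((m : ℝ) + 2) := by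
        have : (N : ℝ) ≤ m := by exact_mod_cast hmN
        have hm0 : (0 : ℝ) ≤ m := Nat.cast_nonneg m
        nlinarith
      rw [pow_add, div_mul_eq_mul_div, div_le_iff₀ (by positivity)]
      calc ‖airyCoeff m‖ * (r ^ m * r ^ 3) = (‖airyCoeff m‖ * r ^ m) * r ^ 3 := by ring
        _ ≤ K * (((m : ℝ) + 3) * ((m : ℝ) + 2)) := by
            apply mul_le_mul h1 h3 (by positivity) hK0

lemma airyCoeff_rapid_complex : Rapid (fun n => (airyCoeff n : ℂ)) := by
  intro r hr
  obtain ⟨K, hK⟩ := airyCoeff_rapid r hr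
  exact ⟨K, fun n => by simpa using hK n⟩

/-- The real Airy function. -/
noncomputable def Y : ℝ → ℝ := ps airyCoeff

/-- Its derivative. -/
noncomputable def Y1 : ℝ → ℝ := ps (dcoef airyCoeff)

lemma hasDerivAt_Y (x : ℝ) : HasDerivAt Y (Y1 x) x := airyCoeff_rapid.hasDerivAt x

lemma hasDerivAt_Y1 (x : ℝ) : HasDerivAt Y1 (x * Y x) x := by
  refine (airyCoeff_rapid.dcoef.hasDerivAt x).congr_deriv ?_
  unfold Y ps
  have hs : Summable fun n : ℕ => dcoef (dcoef airyCoeff) n * x ^ n :=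
    airyCoeff_rapid.dcoef.dcoef.summable x
  rw [hs.tsum_eq_zero_add, ← tsum_mul_left]
  have h0 : dcoef (dcoef airyCoeff) 0 = 0 := by
    simp [dcoef, airyCoeff]
  rw [h0, zero_mul, zero_add]
  apply tsum_congr
  intro n
  have : dcoef (dcoef airyCoeff) (n + 1) = airyCoeff n := by
    have h2 : airyCoeff (n + 3) = airyCoeff n / (((n : ℝ) + 3) * ((n : ℝ) + 2)) := rfl
    have e : n + 1 + 1 + 1 = n + 3 := rfl
    simp only [dcoef, e, h2]
    push_cast
    have h3 : ((n : ℝ) + 3) ≠ 0 := by positivity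
    have h4 : ((n : ℝ) + 2) ≠ 0 := by positivity
    field_simp
    ring
  rw [this]
  ring

lemma continuous_Y : Continuous Y :=
  continuous_iff_continuousAt.2 fun x => (hasDerivAt_Y x).continuousAt

lemma continuous_Y1 : Continuous Y1 :=
  continuous_iff_continuousAt.2 fun x => (hasDerivAt_Y1 x).continuousAt

lemma Ai_ofReal (x : ℝ) : Ai (x : ℂ) = (Y x : ℂ) := by
  unfold Ai Y ps
  rw [Complex.ofReal_tsum]
  apply tsum_congr
  intro n
  push_cast
  rfl

lemma differentiable_Ai : Differentiable ℂ Ai := fun z =>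
  (airyCoeff_rapid_complex.hasDerivAt z).differentiableAt

lemma Y_zero_pos : 0 < Y 0 := by
  have : Y 0 = airyCoeff 0 := by
    unfold Y ps
    rw [tsum_eq_single 0]
    · simp
    · intro n hn; simp [hn]
  rw [this]
  have h : (0 : ℝ) < Real.Gamma (2 / 3) := Real.Gamma_pos_of_pos (by norm_num)
  simp only [airyCoeff]
  positivity

lemma Ai_zero_ne : Ai 0 ≠ 0 := by
  have := Ai_ofReal 0
  rw [Complex.ofReal_zero] at this
  rw [this]
  exact_mod_cast Y_zero_pos.ne'

/-! ### A zero of `Y` on `[-(2 + π/√2), -2]` -/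

/-- Sturm comparison with `y'' = -2 y`. -/
lemma sturm_aux (f f1 : ℝ → ℝ) (hf : ∀ x, HasDerivAt f (f1 x) x)
    (hf1 : ∀ x, HasDerivAt f1 (x * f x) x)
    (hpos : ∀ x ∈ Icc (-(2 + Real.pi / √2)) (-2), 0 < f x) : False := by
  set s : ℝ := √2 with hs
  have hs0 : 0 < s := Real.sqrt_pos.2 (by norm_num)
  have hs2 : s * s = 2 := Real.mul_self_sqrt (by norm_num)
  set α : ℝ := 2 + Real.pi / s with hα
  have hπ := Real.pi_pos
  have hα2 : -α < -2 := by
    have : 0 < Real.pi / s := by positivity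
    linarith
  -- Wronskian
  set W : ℝ → ℝ := fun x => f x * (-(s * Real.cos (s * (-2 - x)))) -
    f1 x * Real.sin (s * (-2 - x)) with hW
  have hder : ∀ x, HasDerivAt W ((-2 - x) * f x * Real.sin (s * (-2 - x))) x := by
    intro x
    have h1 : HasDerivAt (fun x : ℝ => s * (-2 - x)) (-s) x := by
      have := ((hasDerivAt_id' x).const_sub (-2)).const_mul s
      exact this.congr_deriv (by ring)
    have h2 : HasDerivAt (fun x : ℝ => Real.sin (s * (-2 - x)))
        (Real.cos (s * (-2 - x)) * (-s)) x := h1.sin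
    have h3 : HasDerivAt (fun x : ℝ => -(s * Real.cos (s * (-2 - x))))
        (-(s * (-Real.sin (s * (-2 - x)) * (-s)))) x := (h1.cos.const_mul s).fun_neg
    have h4 := ((hf x).mul h3).sub ((hf1 x).mul h2)
    refine h4.congr_deriv ?_
    have : s * (-Real.sin (s * (-2 - x)) * (-s)) = 2 * Real.sin (s * (-2 - x)) := by
      rw [← hs2]; ring
    rw [this]; ring
  have hmono : MonotoneOn W (Icc (-α) (-2)) := by
    apply monotoneOn_of_deriv_nonneg (convex_Icc _ _)
    · exact fun x _ => (hder x).continuousAt.continuousWithinAt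
    · exact fun x _ => (hder x).differentiableAt.differentiableWithinAt
    · intro x hx
      rw [interior_Icc] at hx
      rw [(hder x).deriv]
      have h5 : 0 ≤ Real.sin (s * (-2 - x)) := by
        apply Real.sin_nonneg_of_nonneg_of_le_pi
        · have : 0 ≤ -2 - x := by linarith [hx.2]
          positivity
        · have : -2 - x ≤ Real.pi / s := by
            have := hx.1
            rw [hα] at this; linarith
          calc s * (-2 - x) ≤ s * (Real.pi / s) := by gcongr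
            _ = Real.pi := by field_simp
      have h6 : 0 ≤ -2 - x := by linarith [hx.2]
      have h7 := hpos x ⟨hx.1.le, hx.2.le⟩
      positivity
  have h8 := hmono (left_mem_Icc.2 hα2.le) (right_mem_Icc.2 hα2.le) hα2.le
  have h9 : s * (-2 - -α) = Real.pi := by rw [hα]; field_simp; ring
  have h10 : s * (-2 - -2) = 0 := by ring
  simp only [hW, h9, h10, Real.cos_pi, Real.sin_pi, Real.cos_zero, Real.sin_zero] at h8
  have h11 := hpos (-α) (left_mem_Icc.2 hα2.le)
  have h12 := hpos (-2) (right_mem_Icc.2 hα2.le)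
  nlinarith [mul_pos h11 hs0, mul_pos h12 hs0]

lemma exists_zero : ∃ x ∈ Icc (-(2 + Real.pi / √2)) (-2), Y x = 0 := by
  by_contra hne
  push Not at hne
  have hα2 : -(2 + Real.pi / √2) ≤ -2 := by
    have : 0 < Real.pi / √2 := by positivity
    linarith
  by_cases h0 : 0 < Y (-2)
  · apply sturm_aux Y Y1 hasDerivAt_Y hasDerivAt_Y1
    intro x hx
    by_contra hx0
    push Not at hx0
    have := intermediate_value_Icc hx.2 continuous_Y.continuousOn
    obtain ⟨z, hz, hz0⟩ := this ⟨hx0, h0.le⟩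
    exact hne z ⟨hx.1.trans hz.1, hz.2⟩ hz0
  · push Not at h0
    apply sturm_aux (fun x => - Y x) (fun x => - Y1 x) (fun x => (hasDerivAt_Y x).fun_neg)
      (fun x => ((hasDerivAt_Y1 x).fun_neg).congr_deriv (by ring))
    intro x hx
    by_contra hx0
    push Not at hx0
    have hx0' : 0 ≤ Y x := by linarith
    have := intermediate_value_Icc' hx.2 continuous_Y.continuousOn
    obtain ⟨z, hz, hz0⟩ := this ⟨h0, hx0'⟩
    exact hne z ⟨hx.1.trans hz.1, hz.2⟩ hz0

/-! ### Zeros are simple -/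

lemma simple_zero {x0 : ℝ} (hx0 : x0 ≤ 0) (h : Y x0 = 0) : Y1 x0 ≠ 0 := by
  intro h1
  set K : ℝ := 1 + |x0| with hK
  set E : ℝ → ℝ := fun x => (Y x ^ 2 + Y1 x ^ 2) * Real.exp (-(K * x)) with hE
  have hder : ∀ x, HasDerivAt E ((2 * (1 + x) * (Y x * Y1 x) - K * (Y x ^ 2 + Y1 x ^ 2)) *
      Real.exp (-(K * x))) x := by
    intro x
    have h2 : HasDerivAt (fun x : ℝ => Real.exp (-(K * x)))
        (Real.exp (-(K * x)) * (-K)) x := by
      have := ((hasDerivAt_id' x).const_mul K).fun_neg.exp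
      exact this.congr_deriv (by ring)
    have h3 := ((((hasDerivAt_Y x).pow 2).add ((hasDerivAt_Y1 x).pow 2)).mul h2)
    refine h3.congr_deriv ?_
    simp only [Pi.add_apply, Pi.pow_apply]
    push_cast
    ring
  have hanti : AntitoneOn E (Icc x0 0) := by
    apply antitoneOn_of_deriv_nonpos (convex_Icc _ _)
    · exact fun x _ => (hder x).continuousAt.continuousWithinAt
    · exact fun x _ => (hder x).differentiableAt.differentiableWithinAt
    · intro x hx
      rw [interior_Icc] at hx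
      rw [(hder x).deriv]
      have hx1 : |1 + x| ≤ K := by
        rw [hK, abs_of_nonpos hx0, abs_le]
        constructor <;> linarith [hx.1, hx.2]
      have h4 : 2 * (1 + x) * (Y x * Y1 x) ≤ K * (Y x ^ 2 + Y1 x ^ 2) := by
        have h5 : |2 * (1 + x) * (Y x * Y1 x)| ≤ K * (Y x ^ 2 + Y1 x ^ 2) := by
          rw [abs_mul, abs_mul, abs_mul, abs_two]
          have h6 : 2 * (|Y x| * |Y1 x|) ≤ Y x ^ 2 + Y1 x ^ 2 := by
            nlinarith [sq_nonneg (|Y x| - |Y1 x|), sq_abs (Y x), sq_abs (Y1 x)]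
          have h7 : 0 ≤ |Y x| * |Y1 x| := by positivity
          calc 2 * |1 + x| * (|Y x| * |Y1 x|) = |1 + x| * (2 * (|Y x| * |Y1 x|)) := by ring
            _ ≤ K * (Y x ^ 2 + Y1 x ^ 2) := by
              apply mul_le_mul hx1 h6 (by positivity) (by positivity)
        exact (le_abs_self _).trans h5
      exact mul_nonpos_of_nonpos_of_nonneg (by linarith) (Real.exp_pos _).le
  have h5 := hanti (left_mem_Icc.2 hx0) (right_mem_Icc.2 hx0) hx0
  simp only [hE, h, h1] at h5
  simp at h5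
  have := Y_zero_pos
  nlinarith [sq_nonneg (Y1 0), sq_nonneg (Y 0), mul_pos this this]

end Pool.Agent.Work.MP_b46d52_pr
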