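import Mathlib

/-!
Exponential integrability from unit-step ratio bounds.
-/

open MeasureTheory Set Filter Topology
open scoped ENNReal

namespace Pool.Agent.Work.MP_b46d52_pr

lemma lintegral_half_line {F : ℝ → ℝ≥0∞} {s0 : ℝ} {ρ : ℝ≥0∞} (hρ : ρ < 1)
    (hint : ∫⁻ s in Ico s0 (s0 + 1), F s < ∞) (hr : ∀ s ≥ s0, F (s + 1) ≤ ρ * F s) :
    ∫⁻ s in Ici s0, F s < ∞ := by
  have hρt : ρ ≠ ∞ := (hρ.trans ENNReal.one_lt_top).ne
  set J : ℕ → ℝ≥0∞ := fun n => ∫⁻ s in Ico (s0 + n) (s0 + n + 1), F s with hJ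
  have hstep : ∀ n, J (n + 1) ≤ ρ * J n := by
    intro n
    simp only [hJ]
    rw [← lintegral_indicator measurableSet_Ico, ← lintegral_indicator measurableSet_Ico,
      ← lintegral_const_mul' _ _ hρt, ← lintegral_add_right_eq_self _ (1 : ℝ)]
    apply lintegral_mono
    intro x
    by_cases hx : x ∈ Ico (s0 + n) (s0 + n + 1)
    · have hx' : x + 1 ∈ Ico (s0 + ((n + 1 : ℕ) : ℝ)) (s0 + ((n + 1 : ℕ) : ℝ) + 1) := by
        push_cast
        constructor <;> linarith [hx.1, hx.2]
      simp only [indicator_of_mem hx, indicator_of_mem hx']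
      apply hr
      have : (0 : ℝ) ≤ n := Nat.cast_nonneg n
      linarith [hx.1]
    · have hx' : x + 1 ∉ Ico (s0 + ((n + 1 : ℕ) : ℝ)) (s0 + ((n + 1 : ℕ) : ℝ) + 1) := by
        intro hh
        apply hx
        push_cast at hh
        constructor <;> linarith [hh.1, hh.2]
      simp only [indicator_of_notMem hx, indicator_of_notMem hx', mul_zero, le_refl]
  have hgeo : ∀ n, J n ≤ ρ ^ n * J 0 := by
    intro n
    induction n with
    | zero => simp
    | succ n ih =>
      calc J (n + 1) ≤ ρ * J n := hstep n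
        _ ≤ ρ * (ρ ^ n * J 0) := by gcongr
        _ = ρ ^ (n + 1) * J 0 := by rw [pow_succ]; ring
  have hcover : Ici s0 ⊆ ⋃ n : ℕ, Ico (s0 + n) (s0 + n + 1) := by
    intro x hx
    rw [mem_iUnion]
    refine ⟨⌊x - s0⌋₊, ?_, ?_⟩
    · have := Nat.floor_le (show 0 ≤ x - s0 by linarith [mem_Ici.1 hx])
      linarith
    · have := Nat.lt_floor_add_one (x - s0)
      linarith
  have hJ0 : J 0 < ∞ := by simpa [hJ] using hint
  calc ∫⁻ s in Ici s0, F s ≤ ∫⁻ s in ⋃ n : ℕ, Ico (s0 + n) (s0 + n + 1), F s :=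
        lintegral_mono_set hcover
    _ ≤ ∑' n, J n := lintegral_iUnion_le _ _
    _ ≤ ∑' n, ρ ^ n * J 0 := ENNReal.tsum_le_tsum hgeo
    _ = (1 - ρ)⁻¹ * J 0 := by rw [ENNReal.tsum_mul_right, ENNReal.tsum_geometric]
    _ < ∞ := by
      apply ENNReal.mul_lt_top _ hJ0
      rw [ENNReal.inv_lt_top]
      exact tsub_pos_of_lt hρ

lemma integrableOn_exp_mul {g : ℝ → ℝ} (hg : Integrable g) (l a b : ℝ) :
    IntegrableOn (fun s => Real.exp (l * s) * g s) (Icc a b) := by
  apply IntegrableOn.continuousOn_mul _ hg.integrableOn isCompact_Icc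
  fun_prop

/-- Right tail. -/
lemma integrable_right {g : ℝ → ℝ} (hg : Integrable g) (hpos : ∀ s, 0 < g s) {s0 c l : ℝ}
    (hr : ∀ s ≥ s0, g (s + 1) ≤ Real.exp (-c) * g s) (hl0 : 0 ≤ l) (hlc : l < c) :
    Integrable (fun s => Real.exp (l * s) * g s) := by
  have hmeas : AEStronglyMeasurable (fun s => Real.exp (l * s) * g s) volume := by
    apply AEStronglyMeasurable.mul _ hg.aestronglyMeasurable
    fun_prop
  have h1 : IntegrableOn (fun s => Real.exp (l * s) * g s) (Iio s0) := by
    refine Integrable.mono' (g := fun s => Real.exp (l * s0) * g s)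
      ((hg.const_mul _).integrableOn) hmeas.restrict ?_
    refine (ae_restrict_iff' measurableSet_Iio).2 (Eventually.of_forall fun s hs => ?_)
    rw [Real.norm_of_nonneg (mul_nonneg (Real.exp_pos _).le (hpos s).le)]
    have : l * s ≤ l * s0 := by
      apply mul_le_mul_of_nonneg_left (le_of_lt (mem_Iio.1 hs)) hl0
    have := hpos s
    gcongr
  have h2 : IntegrableOn (fun s => Real.exp (l * s) * g s) (Ici s0) := by
    refine ⟨hmeas.restrict, ?_⟩
    rw [hasFiniteIntegral_iff_ofReal (Eventually.of_forall fun s =>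
      mul_nonneg (Real.exp_pos _).le (hpos s).le)]
    apply lintegral_half_line (ρ := ENNReal.ofReal (Real.exp (l - c)))
    · rw [← ENNReal.ofReal_one, ENNReal.ofReal_lt_ofReal_iff one_pos, Real.exp_lt_one_iff]
      linarith
    · have h3 := (integrableOn_exp_mul hg l s0 (s0 + 1)).mono_set Ico_subset_Icc_self
      have h4 := h3.2
      rwa [hasFiniteIntegral_iff_ofReal (Eventually.of_forall fun s =>
        mul_nonneg (Real.exp_pos _).le (hpos s).le)] at h4
    · intro s hs
      rw [← ENNReal.ofReal_mul (Real.exp_pos _).le]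
      apply ENNReal.ofReal_le_ofReal
      calc Real.exp (l * (s + 1)) * g (s + 1) ≤ Real.exp (l * (s + 1)) * (Real.exp (-c) * g s) := by
            gcongr; exact hr s hs
        _ = Real.exp (l - c) * (Real.exp (l * s) * g s) := by
            rw [← mul_assoc, ← mul_assoc, ← Real.exp_add, ← Real.exp_add]
            congr 2; ring
  have := h1.union h2
  rwa [Iio_union_Ici, integrableOn_univ] at this

/-- Left tail. -/
lemma integrable_left {g : ℝ → ℝ} (hg : Integrable g) (hpos : ∀ s, 0 < g s) {s0 c l : ℝ}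
    (hr : ∀ s ≤ s0, g s ≤ Real.exp (-c) * g (s + 1)) (hl0 : l ≤ 0) (hlc : -c < l) :
    Integrable (fun s => Real.exp (l * s) * g s) := by
  have h := integrable_right (g := fun s => g (-s)) hg.comp_neg (fun s => hpos _)
    (s0 := -s0 - 1) (c := c) (l := -l) ?_ (by linarith) (by linarith)
  · have h2 := h.comp_neg
    refine h2.congr (Eventually.of_forall fun s => ?_)
    simp
  · intro s hs
    have := hr (-s - 1) (by linarith)
    have e1 : -(s + 1) = -s - 1 := by ring
    have e2 : -s - 1 + 1 = -s := by ring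
    rw [e2] at this
    simpa only [e1] using this

lemma integral_growth {f : ℝ → ℝ} (hf : ∀ s, f s ≤ f (s + 1)) (hi : LocallyIntegrable f) (N : ℕ) :
    N * ∫ x in (0 : ℝ)..1, f x ≤ ∫ x in (0 : ℝ)..N, f x := by
  have hii : ∀ a b : ℝ, IntervalIntegrable f volume a b := fun a b =>
    (hi.integrableOn_isCompact isCompact_uIcc).intervalIntegrable
  have hge : ∀ (n : ℕ) (s : ℝ), f s ≤ f (s + n) := by
    intro n
    induction n with
    | zero => intro s; simp
    | succ n ih =>
      intro s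
      have := (ih s).trans (hf _)
      push_cast
      rwa [add_assoc] at this
  have hsum := intervalIntegral.sum_integral_adjacent_intervals (f := f) (μ := volume)
    (a := fun n : ℕ => (n : ℝ)) (n := N) (fun k _ => hii _ _)
  simp only [Nat.cast_zero] at hsum
  rw [← hsum]
  calc (N : ℝ) * ∫ x in (0 : ℝ)..1, f x = ∑ k ∈ Finset.range N, ∫ x in (0 : ℝ)..1, f x := by simp
    _ ≤ ∑ k ∈ Finset.range N, ∫ x in (k : ℝ)..((k + 1 : ℕ) : ℝ), f x := by
      apply Finset.sum_le_sum
      intro k _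
      have e : ∫ x in (k : ℝ)..((k + 1 : ℕ) : ℝ), f x = ∫ x in (0 : ℝ)..1, f (x + k) := by
        rw [intervalIntegral.integral_comp_add_right f (k : ℝ)]
        congr 1
        · simp
        · push_cast; ring
      rw [e]
      apply intervalIntegral.integral_mono_on (by norm_num) (hii _ _)
      · have := (hii k ((k : ℝ) + 1)).comp_add_right (k : ℝ)
        simpa [add_comm] using this
      · intro x _
        exact hge k x

lemma not_increasing {g : ℝ → ℝ} (hg : Integrable g) (hpos : ∀ s, 0 < g s) :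
    ∃ s, g (s + 1) < g s := by
  by_contra hne
  push Not at hne
  have h1 := integral_growth hne hg.locallyIntegrable
  have h2 : ∀ N : ℕ, ∫ x in (0 : ℝ)..N, g x ≤ ∫ x, g x := by
    intro N
    rw [intervalIntegral.integral_of_le (Nat.cast_nonneg N)]
    exact setIntegral_le_integral hg (Eventually.of_forall fun s => (hpos s).le)
  have h3 : 0 < ∫ x in (0 : ℝ)..1, g x := by
    apply intervalIntegral.intervalIntegral_pos_of_pos hg.intervalIntegrable hpos (by norm_num)
  obtain ⟨N, hN⟩ := exists_nat_gt ((∫ x, g x) / ∫ x in (0 : ℝ)..1, g x)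
  rw [div_lt_iff₀ h3] at hN
  have := (h1 N).trans (h2 N)
  linarith

lemma not_decreasing {g : ℝ → ℝ} (hg : Integrable g) (hpos : ∀ s, 0 < g s) :
    ∃ s, g s < g (s + 1) := by
  obtain ⟨s, hs⟩ := not_increasing (g := fun s => g (-s)) hg.comp_neg (fun s => hpos _)
  refine ⟨-(s + 1), ?_⟩
  have e : -(s + 1) + 1 = -s := by ring
  rw [e]
  exact hs

end Pool.Agent.Work.MP_b46d52_pr
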