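import Mathlib
import Pool.Agent.Work.MP_b46d52_pr.Defs

/-!
Consequences of hyperbolic monotonicity and convexity for `p(x) = g(log x)/x`.
-/

open MeasureTheory Set Filter Topology

namespace Pool.Agent.Work.MP_b46d52_pr

/-- Complete monotonicity implies the order two property. -/
lemma HM.hm2 {p : ℝ → ℝ} (h : HM p) : HM2 p := by
  refine ⟨h.1, fun u hu => ?_⟩
  obtain ⟨F, ⟨hF, hF'⟩, hFp⟩ := h.2 u hu
  have hd : DifferentiableOn ℝ F (Ioi 2) := hF.differentiableOn (by simp)
  have hdd : DifferentiableOn ℝ (deriv F) (Ioi 2) := by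
    have h2 : ContDiffOn ℝ (1 + 1) F (Ioi 2) := by
      have h3 : ((2 : ℕ∞) : WithTop ℕ∞) ≤ ((⊤ : ℕ∞) : WithTop ℕ∞) := WithTop.coe_le_coe.2 le_top
      have h4 := hF.of_le h3
      have h5 : ((2 : ℕ∞) : WithTop ℕ∞) = 1 + 1 := by norm_num
      rwa [h5] at h4
    exact ((contDiffOn_succ_iff_deriv_of_isOpen isOpen_Ioi).1 h2).2.2.differentiableOn (by simp)
  refine ⟨F, ?_, ?_, hFp⟩
  · apply antitoneOn_of_deriv_nonpos (convex_Ioi _) hd.continuousOn
    · rw [interior_Ioi]; exact hd
    · intro x hx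
      rw [interior_Ioi] at hx
      have := hF' 1 x hx
      rw [iteratedDeriv_one] at this
      linarith
  · apply convexOn_of_deriv2_nonneg' (convex_Ioi _) hd hdd
    intro x hx
    have := hF' 2 x hx
    rw [iteratedDeriv_eq_iterate] at this
    linarith

variable {g : ℝ → ℝ}

lemma w_gt_two {v : ℝ} (hv : 1 < v) : 2 < v + 1 / v := by
  have h0 : 0 < v := by linarith
  have : v + 1 / v - 2 = (v - 1) ^ 2 / v := by field_simp; ring
  have h1 : 0 < (v - 1) ^ 2 / v := by
    have : 0 < v - 1 := by linarith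
    positivity
  linarith

lemma w_lt_w {v1 v2 : ℝ} (hv : 1 < v1) (h : v1 < v2) : v1 + 1 / v1 < v2 + 1 / v2 := by
  have h0 : 0 < v1 := by linarith
  have h2 : 0 < v2 := by linarith
  have : v2 + 1 / v2 - (v1 + 1 / v1) = (v2 - v1) * (v1 * v2 - 1) / (v1 * v2) := by
    field_simp; ring
  have h1 : 0 < (v2 - v1) * (v1 * v2 - 1) / (v1 * v2) := by
    have : 0 < v2 - v1 := by linarith
    have : 0 < v1 * v2 - 1 := by nlinarith
    positivity
  linarith

lemma p_prod (g : ℝ → ℝ) (a x : ℝ) :
    (fun x => g (Real.log x) / x) (Real.exp a * Real.exp (x - a)) *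
      (fun x => g (Real.log x) / x) (Real.exp a / Real.exp (x - a)) =
      g x * g (2 * a - x) * Real.exp (-(2 * a)) := by
  have h1 : Real.exp a * Real.exp (x - a) = Real.exp x := by
    rw [← Real.exp_add]; congr 1; ring
  have h2 : Real.exp a / Real.exp (x - a) = Real.exp (2 * a - x) := by
    rw [← Real.exp_sub]; congr 1; ring
  simp only [h1, h2, Real.log_exp]
  rw [div_mul_div_comm, ← Real.exp_add, div_eq_mul_inv, ← Real.exp_neg]
  congr 2; ring

/-- Monotonicity of the product. -/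
lemma prod_mono (h : HM2 (fun x => g (Real.log x) / x)) {a x1 x2 : ℝ} (h1 : a < x1)
    (h2 : x1 < x2) : g x2 * g (2 * a - x2) ≤ g x1 * g (2 * a - x1) := by
  obtain ⟨F, hF1, -, hF⟩ := h.2 (Real.exp a) (Real.exp_pos a)
  have e1 := hF (Real.exp (x1 - a)) (Real.exp_pos _)
  have e2 := hF (Real.exp (x2 - a)) (Real.exp_pos _)
  rw [p_prod] at e1 e2
  have v1 : 1 < Real.exp (x1 - a) := by rw [Real.one_lt_exp_iff]; linarith
  have v12 : Real.exp (x1 - a) < Real.exp (x2 - a) := by rw [Real.exp_lt_exp]; linarith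
  have := hF1 (w_gt_two v1) (w_gt_two (v1.trans v12)) (w_lt_w v1 v12).le
  rw [e1, e2] at this
  exact le_of_mul_le_mul_right this (Real.exp_pos _)

/-- Three-point inequality. -/
lemma prod_convex (h : HM2 (fun x => g (Real.log x) / x)) {a x1 x x2 : ℝ} (h1 : a < x1)
    (h2 : x1 < x) (h3 : x < x2) :
    ((Real.exp x2 + Real.exp (2 * a - x2)) - (Real.exp x1 + Real.exp (2 * a - x1))) *
        (g x * g (2 * a - x)) ≤
      ((Real.exp x2 + Real.exp (2 * a - x2)) - (Real.exp x + Real.exp (2 * a - x))) *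
        (g x1 * g (2 * a - x1)) +
      ((Real.exp x + Real.exp (2 * a - x)) - (Real.exp x1 + Real.exp (2 * a - x1))) *
        (g x2 * g (2 * a - x2)) := by
  obtain ⟨F, -, hF2, hF⟩ := h.2 (Real.exp a) (Real.exp_pos a)
  have e1 := hF (Real.exp (x1 - a)) (Real.exp_pos _)
  have e := hF (Real.exp (x - a)) (Real.exp_pos _)
  have e2 := hF (Real.exp (x2 - a)) (Real.exp_pos _)
  rw [p_prod] at e1 e2 e
  have hw : ∀ x : ℝ, Real.exp (x - a) + 1 / Real.exp (x - a) =
      (Real.exp x + Real.exp (2 * a - x)) * Real.exp (-a) := by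
    intro x
    rw [one_div, ← Real.exp_neg, add_mul, ← Real.exp_add, ← Real.exp_add]
    congr 2; ring
  have v1 : 1 < Real.exp (x1 - a) := by rw [Real.one_lt_exp_iff]; linarith
  have v12 : Real.exp (x1 - a) < Real.exp (x - a) := by rw [Real.exp_lt_exp]; linarith
  have v23 : Real.exp (x - a) < Real.exp (x2 - a) := by rw [Real.exp_lt_exp]; linarith
  have w1 := w_gt_two v1
  have w12 := w_lt_w v1 v12
  have w23 := w_lt_w (v1.trans v12) v23
  have w2 := (w1.trans w12).trans w23
  set W1 := Real.exp (x1 - a) + 1 / Real.exp (x1 - a) with hW1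
  set W := Real.exp (x - a) + 1 / Real.exp (x - a) with hW
  set W2 := Real.exp (x2 - a) + 1 / Real.exp (x2 - a) with hW2
  have h13 : 0 < W2 - W1 := by linarith
  have hn1 : 0 ≤ (W2 - W) / (W2 - W1) := div_nonneg (by linarith) h13.le
  have hn2 : 0 ≤ (W - W1) / (W2 - W1) := div_nonneg (by linarith) h13.le
  have hn3 : (W2 - W) / (W2 - W1) + (W - W1) / (W2 - W1) = 1 := by field_simp; ring
  have key := hF2.2 (mem_Ioi.2 w1) (mem_Ioi.2 w2) hn1 hn2 hn3
  have hcomb : ((W2 - W) / (W2 - W1)) • W1 + ((W - W1) / (W2 - W1)) • W2 = W := by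
    simp only [smul_eq_mul]; field_simp; ring
  rw [hcomb, e1, e2, e] at key
  simp only [smul_eq_mul] at key
  have key2 : (W2 - W1) * (g x * g (2 * a - x) * Real.exp (-(2 * a))) ≤
      (W2 - W) * (g x1 * g (2 * a - x1) * Real.exp (-(2 * a))) +
      (W - W1) * (g x2 * g (2 * a - x2) * Real.exp (-(2 * a))) := by
    calc (W2 - W1) * (g x * g (2 * a - x) * Real.exp (-(2 * a)))
        ≤ (W2 - W1) * ((W2 - W) / (W2 - W1) * (g x1 * g (2 * a - x1) * Real.exp (-(2 * a))) +
      (W - W1) / (W2 - W1) * (g x2 * g (2 * a - x2) * Real.exp (-(2 * a)))) := by gcongr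
      _ = _ := by field_simp
  rw [hW1, hW, hW2, hw, hw, hw] at key2
  have hE : 0 < Real.exp (-a) * Real.exp (-(2 * a)) := by positivity
  refine le_of_mul_le_mul_right ?_ hE
  linarith [key2]

/-- The ratios `g(s+δ)/g(s)` are nonincreasing in `s` (stated multiplicatively). -/
lemma ratio_anti (h : HM2 (fun x => g (Real.log x) / x)) (hg : ∀ s, 0 < g s) {s t δ : ℝ}
    (hst : s ≤ t) (hδ : 0 < δ) : g s * g (t + δ) ≤ g (s + δ) * g t := by
  have main : ∀ s t : ℝ, s < t → t ≠ s + δ → g s * g (t + δ) ≤ g (s + δ) * g t := by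
    intro s t hst hne
    rcases lt_or_gt_of_ne hne with hlt | hgt
    · -- t < s + δ < t + δ
      have h1 := prod_mono h (a := (s + t + δ) / 2) (x1 := s + δ) (x2 := t + δ)
        (by linarith) (by linarith)
      have e1 : 2 * ((s + t + δ) / 2) - (s + δ) = t := by ring
      have e2 : 2 * ((s + t + δ) / 2) - (t + δ) = s := by ring
      rw [e1, e2] at h1
      linarith
    · have h1 := prod_mono h (a := (s + t + δ) / 2) (x1 := t) (x2 := t + δ)
        (by linarith) (by linarith)
      have e1 : 2 * ((s + t + δ) / 2) - t = s + δ := by ring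
      have e2 : 2 * ((s + t + δ) / 2) - (t + δ) = s := by ring
      rw [e1, e2] at h1
      linarith
  rcases eq_or_lt_of_le hst with rfl | hlt
  · linarith [mul_comm (g s) (g (s + δ))]
  · by_cases hne : t = s + δ
    · -- intermediate point
      set m := s + δ / 2 with hm
      have h1 := main s m (by linarith) (by rw [hm]; intro hh; linarith)
      have h2 := main m t (by linarith) (by rw [hm, hne]; intro hh; linarith)
      -- multiply
      have h3 : (g s * g (m + δ)) * (g m * g (t + δ)) ≤ (g (s + δ) * g m) * (g (m + δ) * g t) :=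
        mul_le_mul h1 h2 (mul_pos (hg _) (hg _)).le (mul_pos (hg _) (hg _)).le
      have h4 : 0 < g (m + δ) * g m := mul_pos (hg _) (hg _)
      refine le_of_mul_le_mul_right ?_ h4
      linarith
    · exact main s t hlt hne

/-- Logarithmic increments. -/
noncomputable def D (g : ℝ → ℝ) (δ s : ℝ) : ℝ := Real.log (g (s + δ)) - Real.log (g s)

lemma D_anti (h : HM2 (fun x => g (Real.log x) / x)) (hg : ∀ s, 0 < g s) {δ : ℝ} (hδ : 0 < δ) :
    Antitone (D g δ) := by
  intro s t hst
  have h1 := ratio_anti h hg hst hδ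
  have h2 := Real.log_le_log (mul_pos (hg _) (hg _)) h1
  rw [Real.log_mul (hg _).ne' (hg _).ne', Real.log_mul (hg _).ne' (hg _).ne'] at h2
  unfold D
  linarith

lemma tendsto_D_one (h : HM2 (fun x => g (Real.log x) / x)) (hg : ∀ s, 0 < g s)
    (hb : BddAbove (range (D g 1))) : Tendsto (D g 1) atBot (𝓝 (⨆ s, D g 1 s)) :=
  tendsto_atBot_ciSup (D_anti h hg one_pos) hb

lemma sum_D (g : ℝ → ℝ) {m : ℕ} (hm : 0 < m) (s : ℝ) :
    ∑ j ∈ Finset.range m, D g (1 / m) (s + j / m) = D g 1 s := by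
  have hm' : (m : ℝ) ≠ 0 := by positivity
  have : ∀ j ∈ Finset.range m, D g (1 / m) (s + j / m) =
      (fun j : ℕ => Real.log (g (s + j / m))) (j + 1) - (fun j : ℕ => Real.log (g (s + j / m))) j := by
    intro j _
    simp only [D]
    congr 3
    push_cast
    ring
  rw [Finset.sum_congr rfl this]
  have h2 := Finset.sum_range_sub (fun j : ℕ => Real.log (g (s + j / m))) m
  rw [h2]
  simp only [D]
  congr 3
  · rw [div_self hm']
  · simp

lemma D_le (h : HM2 (fun x => g (Real.log x) / x)) (hg : ∀ s, 0 < g s) {m : ℕ} (hm : 0 < m)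
    (s : ℝ) : D g 1 s / m ≤ D g (1 / m) s ∧ D g (1 / m) (s + 1) ≤ D g 1 s / m := by
  have hm' : (0 : ℝ) < m := by positivity
  have ha := D_anti h hg (show (0 : ℝ) < 1 / m by positivity)
  constructor
  · rw [div_le_iff₀ hm', ← sum_D g hm s]
    calc ∑ j ∈ Finset.range m, D g (1 / m) (s + j / m) ≤ ∑ j ∈ Finset.range m, D g (1 / m) s := by
          apply Finset.sum_le_sum
          intro j _
          apply ha
          have : (0 : ℝ) ≤ (j : ℝ) / m := by positivity
          linarith
      _ = D g (1 / m) s * m := by simp [mul_comm]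
  · rw [le_div_iff₀ hm', ← sum_D g hm s]
    calc D g (1 / m) (s + 1) * m = ∑ j ∈ Finset.range m, D g (1 / m) (s + 1) := by
          simp [mul_comm]
      _ ≤ ∑ j ∈ Finset.range m, D g (1 / m) (s + j / m) := by
          apply Finset.sum_le_sum
          intro j hj
          apply ha
          have : (j : ℝ) / m ≤ 1 := by
            rw [div_le_one hm']
            exact_mod_cast (Finset.mem_range.1 hj).le
          linarith

lemma tendsto_D (h : HM2 (fun x => g (Real.log x) / x)) (hg : ∀ s, 0 < g s)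
    (hb : BddAbove (range (D g 1))) {m : ℕ} (hm : 0 < m) :
    Tendsto (D g (1 / m)) atBot (𝓝 ((⨆ s, D g 1 s) / m)) := by
  have h1 := (tendsto_D_one h hg hb).div_const (m : ℝ)
  have h2 : Tendsto (fun s => D g 1 (s - 1) / m) atBot (𝓝 ((⨆ s, D g 1 s) / m)) :=
    h1.comp (tendsto_atBot_add_const_right _ (-1) tendsto_id)
  refine tendsto_of_tendsto_of_tendsto_of_le_of_le h1 h2 (fun s => (D_le h hg hm s).1) (fun s => ?_)
  have := (D_le h hg hm (s - 1)).2
  simpa using this

lemma tendsto_ratio (h : HM2 (fun x => g (Real.log x) / x)) (hg : ∀ s, 0 < g s)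
    (hb : BddAbove (range (D g 1))) {m : ℕ} (hm : 0 < m) :
    Tendsto (fun s => g (s + 1 / m) / g s) atBot (𝓝 (Real.exp ((⨆ s, D g 1 s) / m))) := by
  refine ((Real.continuous_exp.tendsto _).comp (tendsto_D h hg hb hm)).congr (fun s => ?_)
  simp only [Function.comp, D]
  rw [Real.exp_sub, Real.exp_log (hg _), Real.exp_log (hg _)]

lemma tendsto_ratio' (h : HM2 (fun x => g (Real.log x) / x)) (hg : ∀ s, 0 < g s)
    (hb : BddAbove (range (D g 1))) {m : ℕ} (hm : 0 < m) :
    Tendsto (fun s => g (s - 1 / m) / g s) atBot (𝓝 (Real.exp (-((⨆ s, D g 1 s) / m)))) := by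
  have h1 := (tendsto_ratio h hg hb hm).inv₀ (Real.exp_pos _).ne'
  rw [← Real.exp_neg] at h1
  have h2 := h1.comp (tendsto_atBot_add_const_right _ (-(1 / m : ℝ)) tendsto_id)
  refine h2.congr (fun s => ?_)
  simp only [Function.comp, id, inv_div]
  rw [neg_add_cancel_right, ← sub_eq_add_neg]

/-- The limiting three-point inequality. -/
lemma three_point (h : HM2 (fun x => g (Real.log x) / x)) (hg : ∀ s, 0 < g s)
    (hb : BddAbove (range (D g 1))) {m : ℕ} (hm : 0 < m) (s : ℝ) :
    (Real.exp (s + 1 / m) - Real.exp (s - 1 / m)) * g s ≤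
      (Real.exp (s + 1 / m) - Real.exp s) * (Real.exp ((⨆ s, D g 1 s) / m) * g (s - 1 / m)) +
      (Real.exp s - Real.exp (s - 1 / m)) * (Real.exp (-((⨆ s, D g 1 s) / m)) * g (s + 1 / m)) := by
  set δ : ℝ := 1 / m with hδ
  have hδ0 : 0 < δ := by positivity
  have he : ∀ c : ℝ, Tendsto (fun y : ℝ => Real.exp (y + c)) atBot (𝓝 0) := fun c =>
    Real.tendsto_exp_atBot.comp (tendsto_atBot_add_const_right _ c tendsto_id)
  -- finite inequality
  have hfin : ∀ᶠ y in atBot, (((Real.exp (s + δ) + Real.exp (y + -δ)) -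
      (Real.exp (s - δ) + Real.exp (y + δ))) * g s) ≤
      ((Real.exp (s + δ) + Real.exp (y + -δ)) - (Real.exp s + Real.exp (y + 0))) *
        (g (y + δ) / g y * g (s - δ)) +
      ((Real.exp s + Real.exp (y + 0)) - (Real.exp (s - δ) + Real.exp (y + δ))) *
        (g (y - δ) / g y * g (s + δ)) := by
    filter_upwards [eventually_lt_atBot (s - 2 * δ)] with y hy
    have h1 := prod_convex h (a := (y + s) / 2) (x1 := s - δ) (x := s) (x2 := s + δ)
      (by linarith) (by linarith) (by linarith)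
    have e1 : 2 * ((y + s) / 2) - (s + δ) = y - δ := by ring
    have e2 : 2 * ((y + s) / 2) - (s - δ) = y + δ := by ring
    have e3 : 2 * ((y + s) / 2) - s = y := by ring
    rw [e1, e2, e3] at h1
    have hy0 := hg y
    refine le_of_mul_le_mul_right ?_ hy0
    rw [add_zero, ← sub_eq_add_neg]
    have e4 : (((Real.exp (s + δ) + Real.exp (y - δ)) - (Real.exp s + Real.exp y)) *
        (g (y + δ) / g y * g (s - δ)) +
      ((Real.exp s + Real.exp y) - (Real.exp (s - δ) + Real.exp (y + δ))) *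
        (g (y - δ) / g y * g (s + δ))) * g y =
        ((Real.exp (s + δ) + Real.exp (y - δ)) - (Real.exp s + Real.exp y)) *
        (g (s - δ) * g (y + δ)) +
      ((Real.exp s + Real.exp y) - (Real.exp (s - δ) + Real.exp (y + δ))) *
        (g (s + δ) * g (y - δ)) := by
      field_simp
    rw [e4]
    linarith
  have hr1 := tendsto_ratio h hg hb hm
  have hr2 := tendsto_ratio' h hg hb hm
  rw [← hδ] at hr1 hr2
  have hl : Tendsto (fun y => ((Real.exp (s + δ) + Real.exp (y + -δ)) -
      (Real.exp (s - δ) + Real.exp (y + δ))) * g s) atBot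
      (𝓝 (((Real.exp (s + δ) + 0) - (Real.exp (s - δ) + 0)) * g s)) :=
    (((he (-δ)).const_add _).sub ((he δ).const_add _)).mul_const _
  have hrr : Tendsto (fun y => ((Real.exp (s + δ) + Real.exp (y + -δ)) -
      (Real.exp s + Real.exp (y + 0))) * (g (y + δ) / g y * g (s - δ)) +
      ((Real.exp s + Real.exp (y + 0)) - (Real.exp (s - δ) + Real.exp (y + δ))) *
        (g (y - δ) / g y * g (s + δ))) atBot
      (𝓝 (((Real.exp (s + δ) + 0) - (Real.exp s + 0)) *
        (Real.exp ((⨆ s, D g 1 s) / m) * g (s - δ)) +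
      ((Real.exp s + 0) - (Real.exp (s - δ) + 0)) *
        (Real.exp (-((⨆ s, D g 1 s) / m)) * g (s + δ)))) :=
    ((((he (-δ)).const_add _).sub ((he 0).const_add _)).mul (hr1.mul_const _)).add
      ((((he 0).const_add _).sub ((he δ).const_add _)).mul (hr2.mul_const _))
  have := le_of_tendsto_of_tendsto hl hrr hfin
  simpa only [add_zero] using this

end Pool.Agent.Work.MP_b46d52_pr
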