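import Mathlib
import Pool.Agent.Work.MP_b46d52_pr.Ratio
import Pool.Agent.Work.MP_b46d52_pr.Integr

/-!
Log-convexity of `z (z+1) ∫ e^{(z-b)s} g(s) ds`.
-/

open MeasureTheory Set Filter Topology

namespace Pool.Agent.Work.MP_b46d52_pr

/-- `E(z) = ∫ e^{(z-b)s} g(s) ds`. -/
noncomputable def E (g : ℝ → ℝ) (b z : ℝ) : ℝ := ∫ s, Real.exp ((z - b) * s) * g s

/-- The factor `c_δ(z)`. -/
noncomputable def cc (δ z : ℝ) : ℝ :=
  (Real.exp δ - 1) * (Real.exp (z * δ) - 1) * (1 - Real.exp (-((z + 1) * δ)))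

lemma cc_pos {δ z : ℝ} (hδ : 0 < δ) (hz : 0 < z) : 0 < cc δ z := by
  unfold cc
  have h1 : 0 < Real.exp δ - 1 := by linarith [Real.one_lt_exp_iff.2 hδ]
  have h2 : 0 < Real.exp (z * δ) - 1 := by
    linarith [Real.one_lt_exp_iff.2 (show 0 < z * δ by positivity)]
  have h3 : 0 < 1 - Real.exp (-((z + 1) * δ)) := by
    linarith [Real.exp_lt_one_iff.2 (show -((z + 1) * δ) < 0 by
      have : 0 < (z + 1) * δ := by positivity
      linarith)]
  positivity

/-- The nonnegative weight. -/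
noncomputable def wt (g : ℝ → ℝ) (b δ s : ℝ) : ℝ :=
  (Real.exp δ - 1) * (Real.exp (-(b * s)) * (Real.exp (b * δ) * g (s - δ))) +
    (1 - Real.exp (-δ)) * (Real.exp (-(b * s)) * (Real.exp (-(b * δ)) * g (s + δ))) -
    (Real.exp δ - Real.exp (-δ)) * (Real.exp (-(b * s)) * g s)

lemma shift_int {g : ℝ → ℝ} {l : ℝ} (δ : ℝ) (h : Integrable fun s => Real.exp (l * s) * g s) :
    Integrable (fun s => Real.exp (l * s) * g (s + δ)) ∧
    ∫ s, Real.exp (l * s) * g (s + δ) = Real.exp (-(l * δ)) * ∫ s, Real.exp (l * s) * g s := by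
  have h1 := (h.comp_add_right δ).const_mul (Real.exp (-(l * δ)))
  have e : ∀ s, Real.exp (-(l * δ)) * (Real.exp (l * (s + δ)) * g (s + δ)) =
      Real.exp (l * s) * g (s + δ) := by
    intro s
    rw [← mul_assoc, ← Real.exp_add]
    congr 2; ring
  constructor
  · exact h1.congr (Eventually.of_forall fun s => e s)
  · rw [← integral_add_right_eq_self (fun s => Real.exp (l * s) * g s) δ, ← integral_const_mul]
    exact integral_congr_ae (Eventually.of_forall fun s => (e s).symm)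

lemma int_wt {g : ℝ → ℝ} {b δ z : ℝ}
    (h : Integrable fun s => Real.exp ((z - b) * s) * g s) :
    Integrable (fun s => Real.exp (z * s) * wt g b δ s) ∧
    ∫ s, Real.exp (z * s) * wt g b δ s = cc δ z * E g b z := by
  obtain ⟨i1, v1⟩ := shift_int (-δ) h
  obtain ⟨i2, v2⟩ := shift_int δ h
  have e : ∀ s, Real.exp (z * s) * wt g b δ s =
      ((Real.exp δ - 1) * Real.exp (b * δ)) * (Real.exp ((z - b) * s) * g (s + -δ)) +
      ((1 - Real.exp (-δ)) * Real.exp (-(b * δ))) * (Real.exp ((z - b) * s) * g (s + δ)) -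
      (Real.exp δ - Real.exp (-δ)) * (Real.exp ((z - b) * s) * g s) := by
    intro s
    have h1 : Real.exp ((z - b) * s) = Real.exp (z * s) * Real.exp (-(b * s)) := by
      rw [← Real.exp_add]; congr 1; ring
    rw [h1]
    unfold wt
    rw [← sub_eq_add_neg]
    ring
  have hi := ((i1.const_mul ((Real.exp δ - 1) * Real.exp (b * δ))).add
    (i2.const_mul ((1 - Real.exp (-δ)) * Real.exp (-(b * δ))))).sub
    (h.const_mul (Real.exp δ - Real.exp (-δ)))
  constructor
  · exact hi.congr (Eventually.of_forall fun s => (e s).symm)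
  · rw [integral_congr_ae (Eventually.of_forall fun s => e s), integral_sub, integral_add,
      integral_const_mul, integral_const_mul, integral_const_mul, v1, v2]
    · change _ = cc δ z * ∫ s, Real.exp ((z - b) * s) * g s
      have x1 : Real.exp (b * δ) * Real.exp (-((z - b) * -δ)) = Real.exp (z * δ) := by
        rw [← Real.exp_add]; congr 1; ring
      have x2 : Real.exp (-(b * δ)) * Real.exp (-((z - b) * δ)) = Real.exp (-(z * δ)) := by
        rw [← Real.exp_add]; congr 1; ring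
      have x3 : Real.exp (-((z + 1) * δ)) = Real.exp (-δ) * Real.exp (-(z * δ)) := by
        rw [← Real.exp_add]; congr 1; ring
      have x4 : Real.exp (z * δ) * Real.exp (-(z * δ)) = 1 := by
        rw [← Real.exp_add]; simp
      have x5 : Real.exp δ * Real.exp (-δ) = 1 := by
        rw [← Real.exp_add]; simp
      have lhs : (Real.exp δ - 1) * Real.exp (b * δ) * (Real.exp (-((z - b) * -δ)) *
          ∫ s, Real.exp ((z - b) * s) * g s) +
          (1 - Real.exp (-δ)) * Real.exp (-(b * δ)) * (Real.exp (-((z - b) * δ)) *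
          ∫ s, Real.exp ((z - b) * s) * g s) -
          (Real.exp δ - Real.exp (-δ)) * ∫ s, Real.exp ((z - b) * s) * g s =
          ((Real.exp δ - 1) * (Real.exp (b * δ) * Real.exp (-((z - b) * -δ))) +
          (1 - Real.exp (-δ)) * (Real.exp (-(b * δ)) * Real.exp (-((z - b) * δ))) -
          (Real.exp δ - Real.exp (-δ))) * ∫ s, Real.exp ((z - b) * s) * g s := by ring
      rw [lhs, x1, x2]
      unfold cc
      rw [x3]
      congr 1
      linear_combination ((Real.exp δ - 1) * Real.exp (-δ)) * x4 +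
        (1 - Real.exp (-(z * δ))) * x5
    · exact i1.const_mul _
    · exact i2.const_mul _
    · exact (i1.const_mul _).add (i2.const_mul _)
    · exact h.const_mul _

lemma wt_nonneg {g : ℝ → ℝ} (h : HM2 (fun x => g (Real.log x) / x)) (hg : ∀ s, 0 < g s)
    (hb : BddAbove (range (D g 1))) {m : ℕ} (hm : 0 < m) (s : ℝ) :
    0 ≤ wt g (⨆ s, D g 1 s) (1 / m) s := by
  have h1 := three_point h hg hb hm s
  set b := ⨆ s, D g 1 s
  set δ : ℝ := 1 / m with hδ
  have hbm : b / m = b * δ := by rw [hδ]; ring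
  rw [hbm] at h1
  have h2 := mul_le_mul_of_nonneg_left h1 (Real.exp_pos (-((b + 1) * s))).le
  have y1 : Real.exp (s + δ) = Real.exp s * Real.exp δ := Real.exp_add _ _
  have y2 : Real.exp (s - δ) = Real.exp s * Real.exp (-δ) := by rw [← Real.exp_add]; congr 1
  have y3 : Real.exp (-((b + 1) * s)) = Real.exp (-(b * s)) * Real.exp (-s) := by
    rw [← Real.exp_add]; congr 1; ring
  have y4 : Real.exp (-s) * Real.exp s = 1 := by rw [← Real.exp_add]; simp
  rw [y1, y2, y3] at h2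
  unfold wt
  have lhs : Real.exp (-(b * s)) * Real.exp (-s) *
      ((Real.exp s * Real.exp δ - Real.exp s * Real.exp (-δ)) * g s) =
      (Real.exp (-s) * Real.exp s) * ((Real.exp δ - Real.exp (-δ)) * (Real.exp (-(b * s)) * g s)) := by
    ring
  have rhs : Real.exp (-(b * s)) * Real.exp (-s) *
      ((Real.exp s * Real.exp δ - Real.exp s) * (Real.exp (b * δ) * g (s - δ)) +
        (Real.exp s - Real.exp s * Real.exp (-δ)) * (Real.exp (-(b * δ)) * g (s + δ))) =
      (Real.exp (-s) * Real.exp s) *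
      ((Real.exp δ - 1) * (Real.exp (-(b * s)) * (Real.exp (b * δ) * g (s - δ))) +
    (1 - Real.exp (-δ)) * (Real.exp (-(b * s)) * (Real.exp (-(b * δ)) * g (s + δ)))) := by
    ring
  rw [lhs, rhs, y4, one_mul, one_mul] at h2
  linarith

/-- Cauchy-Schwarz. -/
lemma cs_wt {g : ℝ → ℝ} (h : HM2 (fun x => g (Real.log x) / x)) (hg : ∀ s, 0 < g s)
    (hb : BddAbove (range (D g 1))) {m : ℕ} (hm : 0 < m) {z1 z2 : ℝ} (hz1 : 0 < z1)
    (hE1 : 0 < E g (⨆ s, D g 1 s) z1)
    (h1 : Integrable fun s => Real.exp ((z1 - ⨆ s, D g 1 s) * s) * g s)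
    (h2 : Integrable fun s => Real.exp ((z2 - ⨆ s, D g 1 s) * s) * g s)
    (h12 : Integrable fun s => Real.exp (((z1 + z2) / 2 - ⨆ s, D g 1 s) * s) * g s) :
    (cc (1 / m) ((z1 + z2) / 2) * E g (⨆ s, D g 1 s) ((z1 + z2) / 2)) ^ 2 ≤
      (cc (1 / m) z1 * E g (⨆ s, D g 1 s) z1) * (cc (1 / m) z2 * E g (⨆ s, D g 1 s) z2) := by
  have hw := wt_nonneg h hg hb hm
  set b := ⨆ s, D g 1 s
  set δ : ℝ := 1 / m with hδ
  have hδ0 : 0 < δ := by positivity
  obtain ⟨i1, v1⟩ := int_wt (δ := δ) h1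
  obtain ⟨i2, v2⟩ := int_wt (δ := δ) h2
  obtain ⟨i12, v12⟩ := int_wt (δ := δ) h12
  set I1 := cc δ z1 * E g b z1
  set I2 := cc δ z2 * E g b z2
  set I12 := cc δ ((z1 + z2) / 2) * E g b ((z1 + z2) / 2)
  have hI1 : 0 < I1 := mul_pos (cc_pos hδ0 hz1) hE1
  have key : 0 ≤ ∫ s, (I12 ^ 2 * (Real.exp (z1 * s) * wt g b δ s) -
      (2 * I12 * I1) * (Real.exp ((z1 + z2) / 2 * s) * wt g b δ s) +
      I1 ^ 2 * (Real.exp (z2 * s) * wt g b δ s)) := by
    apply integral_nonneg
    intro s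
    have e1 : Real.exp (z1 * s) = Real.exp (z1 * s / 2) ^ 2 := by
      rw [← Real.exp_nat_mul]; congr 1; push_cast; ring
    have e2 : Real.exp (z2 * s) = Real.exp (z2 * s / 2) ^ 2 := by
      rw [← Real.exp_nat_mul]; congr 1; push_cast; ring
    have e3 : Real.exp ((z1 + z2) / 2 * s) = Real.exp (z1 * s / 2) * Real.exp (z2 * s / 2) := by
      rw [← Real.exp_add]; congr 1; ring
    simp only [e1, e2, e3, Pi.zero_apply]
    have : I12 ^ 2 * (Real.exp (z1 * s / 2) ^ 2 * wt g b δ s) -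
      (2 * I12 * I1) * (Real.exp (z1 * s / 2) * Real.exp (z2 * s / 2) * wt g b δ s) +
      I1 ^ 2 * (Real.exp (z2 * s / 2) ^ 2 * wt g b δ s) =
      (I12 * Real.exp (z1 * s / 2) - I1 * Real.exp (z2 * s / 2)) ^ 2 * wt g b δ s := by ring
    rw [this]
    exact mul_nonneg (sq_nonneg _) (hw s)
  rw [integral_add, integral_sub, integral_const_mul, integral_const_mul, integral_const_mul,
    v1, v2, v12] at key
  · have : 0 ≤ I1 * (I1 * I2 - I12 ^ 2) := by linarith
    have := nonneg_of_mul_nonneg_right this hI1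
    linarith
  · exact i1.const_mul _
  · exact i12.const_mul _
  · exact (i1.const_mul _).sub (i12.const_mul _)
  · exact i2.const_mul _

lemma tendsto_exp_sub_one_div (z : ℝ) :
    Tendsto (fun δ : ℝ => (Real.exp (z * δ) - 1) / δ) (𝓝[≠] 0) (𝓝 z) := by
  have h : HasDerivAt (fun δ : ℝ => Real.exp (z * δ)) z 0 := by
    have := ((hasDerivAt_id' (0 : ℝ)).const_mul z).exp
    exact this.congr_deriv (by simp)
  have h2 := h.tendsto_slope
  refine h2.congr (fun δ => ?_)
  rw [slope_def_field]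
  simp

lemma tendsto_cc (z : ℝ) :
    Tendsto (fun δ : ℝ => cc δ z / δ ^ 3) (𝓝[≠] 0) (𝓝 (z * (z + 1))) := by
  have h1 := tendsto_exp_sub_one_div 1
  have h2 := tendsto_exp_sub_one_div z
  have h3 := (tendsto_exp_sub_one_div (-(z + 1))).neg
  have h4 := (h1.mul h2).mul h3
  have e : 1 * z * - -(z + 1) = z * (z + 1) := by ring
  rw [e] at h4
  refine h4.congr' ?_
  filter_upwards [self_mem_nhdsWithin] with δ hδ
  have hδ' : δ ≠ 0 := hδ
  unfold cc
  rw [one_mul, neg_mul]
  field_simp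
  ring

/-- Log-convexity of `Q(z) = z (z+1) E(z)`. -/
lemma log_convex {g : ℝ → ℝ} (h : HM2 (fun x => g (Real.log x) / x)) (hg : ∀ s, 0 < g s)
    (hb : BddAbove (range (D g 1))) {z1 z2 : ℝ} (hz1 : 0 < z1)
    (hE1 : 0 < E g (⨆ s, D g 1 s) z1)
    (h1 : Integrable fun s => Real.exp ((z1 - ⨆ s, D g 1 s) * s) * g s)
    (h2 : Integrable fun s => Real.exp ((z2 - ⨆ s, D g 1 s) * s) * g s)
    (h12 : Integrable fun s => Real.exp (((z1 + z2) / 2 - ⨆ s, D g 1 s) * s) * g s) :
    (((z1 + z2) / 2) * ((z1 + z2) / 2 + 1) * E g (⨆ s, D g 1 s) ((z1 + z2) / 2)) ^ 2 ≤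
      (z1 * (z1 + 1) * E g (⨆ s, D g 1 s) z1) * (z2 * (z2 + 1) * E g (⨆ s, D g 1 s) z2) := by
  have hev : ∀ m : ℕ, 0 < m → _ := fun m hm => cs_wt h hg hb hm hz1 hE1 h1 h2 h12
  set b := ⨆ s, D g 1 s
  have hδ : Tendsto (fun m : ℕ => (1 : ℝ) / m) atTop (𝓝[≠] 0) := by
    refine tendsto_nhdsWithin_iff.2 ⟨tendsto_one_div_atTop_nhds_zero_nat, ?_⟩
    filter_upwards [eventually_gt_atTop 0] with m hm
    have : (m : ℝ) ≠ 0 := by positivity
    simp [this]
  have c1 := (tendsto_cc z1).comp hδ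
  have c2 := (tendsto_cc z2).comp hδ
  have c12 := (tendsto_cc ((z1 + z2) / 2)).comp hδ
  have L := (c12.mul_const (E g b ((z1 + z2) / 2))).pow 2
  have R := (c1.mul_const (E g b z1)).mul (c2.mul_const (E g b z2))
  refine le_of_tendsto_of_tendsto L R ?_
  filter_upwards [eventually_gt_atTop 0] with m hm
  have hm0 : (0 : ℝ) < 1 / m := by positivity
  have := hev m hm
  simp only [Function.comp]
  set δ : ℝ := 1 / m
  have e1 : (cc δ ((z1 + z2) / 2) / δ ^ 3 * E g b ((z1 + z2) / 2)) ^ 2 =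
      (cc δ ((z1 + z2) / 2) * E g b ((z1 + z2) / 2)) ^ 2 / δ ^ 6 := by
    field_simp
  have e2 : cc δ z1 / δ ^ 3 * E g b z1 * (cc δ z2 / δ ^ 3 * E g b z2) =
      (cc δ z1 * E g b z1) * (cc δ z2 * E g b z2) / δ ^ 6 := by
    field_simp
  rw [e1, e2]
  gcongr

end Pool.Agent.Work.MP_b46d52_pr
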