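import Mathlib

/-!
Local analysis at a simple zero of a solution of an Airy-type equation.
-/

open MeasureTheory Set Filter Topology

namespace Pool.Agent.Work.MP_b46d52_pr

lemma nonneg_of_second {φ φ1 φ2 : ℝ → ℝ} {r : ℝ} (h : ∀ x, HasDerivAt φ (φ1 x) x)
    (h1 : ∀ x, HasDerivAt φ1 (φ2 x) x) (h0 : φ 0 = 0) (h10 : φ1 0 = 0)
    (h2 : ∀ x ∈ Ioo 0 r, 0 ≤ φ2 x) : ∀ x ∈ Icc 0 r, 0 ≤ φ x := by
  have m1 : MonotoneOn φ1 (Icc 0 r) := by
    apply monotoneOn_of_deriv_nonneg (convex_Icc _ _)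
    · exact fun x _ => (h1 x).continuousAt.continuousWithinAt
    · exact fun x _ => (h1 x).differentiableAt.differentiableWithinAt
    · intro x hx
      rw [interior_Icc] at hx
      rw [(h1 x).deriv]
      exact h2 x hx
  have m0 : MonotoneOn φ (Icc 0 r) := by
    apply monotoneOn_of_deriv_nonneg (convex_Icc _ _)
    · exact fun x _ => (h x).continuousAt.continuousWithinAt
    · exact fun x _ => (h x).differentiableAt.differentiableWithinAt
    · intro x hx
      rw [interior_Icc] at hx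
      rw [(h x).deriv, ← h10]
      exact m1 (left_mem_Icc.2 (hx.1.le.trans hx.2.le)) ⟨hx.1.le, hx.2.le⟩ hx.1.le
  intro x hx
  rw [← h0]
  exact m0 (left_mem_Icc.2 (hx.1.trans hx.2)) hx hx.1

/-- The inequality `α z (z+1)² A(2z) ≤ 2 (2z+1) A(z)²` near a simple zero of a solution of
`A'' = q (z - b) A` forces `q b ≥ 3`. -/
lemma local_contra {A A1 : ℝ → ℝ} {q b α z0 : ℝ} (hA : ∀ z, HasDerivAt A (A1 z) z)
    (hA1 : ∀ z, HasDerivAt A1 (q * (z - b) * A z) z) (hq : 0 < q) (hb : 0 < b) (hz0 : 0 < z0)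
    (hA0 : A 0 = 0) (hα : A1 0 = α) (hα0 : 0 < α) (hApos : ∀ z ∈ Ioo 0 z0, 0 < A z)
    (hineq : ∀ z ∈ Ioo 0 (z0 / 2), α * z * (z + 1) ^ 2 * A (2 * z) ≤ 2 * (2 * z + 1) * A z ^ 2) :
    3 ≤ q * b := by
  set β : ℝ := q * b / 6 with hβ
  have hβ0 : 0 < β := by positivity
  set K : ℝ := (q + q * b * β) / 12 with hK
  have hK0 : 0 < K := by positivity
  set r : ℝ := min z0 (min b 1) with hr
  have hr0 : 0 < r := by simp [hr, hz0, hb]
  have hrz : r ≤ z0 := min_le_left _ _
  have hrb : r ≤ b := (min_le_right _ _).trans (min_le_left _ _)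
  have hr1 : r ≤ 1 := (min_le_right _ _).trans (min_le_right _ _)
  -- first bound
  have b1 : ∀ z ∈ Icc 0 r, 0 ≤ α * z - A z := by
    apply nonneg_of_second (φ1 := fun z => α - A1 z) (φ2 := fun z => - (q * (z - b) * A z))
    · intro z
      exact (((hasDerivAt_id' z).const_mul α).sub (hA z)).congr_deriv (by ring)
    · intro z
      exact ((hA1 z).const_sub α)
    · simp [hA0]
    · simp [hα]
    · intro z hz
      have h1 := hApos z ⟨hz.1, hz.2.trans_le hrz⟩
      have h2 : 0 ≤ b - z := by linarith [hz.2]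
      have : -(q * (z - b) * A z) = q * (b - z) * A z := by ring
      rw [this]; positivity
  have b2 : ∀ z ∈ Icc 0 r, 0 ≤ A z - α * z + α * β * z ^ 3 := by
    apply nonneg_of_second (φ1 := fun z => A1 z - α + α * β * (3 * z ^ 2))
      (φ2 := fun z => q * (z - b) * A z + α * β * (3 * (2 * z)))
    · intro z
      have h1 := ((hA z).sub ((hasDerivAt_id' z).const_mul α)).add
        ((hasDerivAt_pow 3 z).const_mul (α * β))
      exact h1.congr_deriv (by push_cast; ring)
    · intro z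
      have h1 := ((hA1 z).sub_const α).add (((hasDerivAt_pow 2 z).const_mul 3).const_mul (α * β))
      exact h1.congr_deriv (by push_cast; ring)
    · simp [hA0]
    · simp [hα]
    · intro z hz
      have h1 := hApos z ⟨hz.1, hz.2.trans_le hrz⟩
      have h2 := b1 z ⟨hz.1.le, hz.2.le⟩
      have h3 : q * (z - b) * A z + α * β * (3 * (2 * z)) = q * b * (α * z - A z) + q * z * A z := by
        rw [hβ]; ring
      rw [h3]
      have := hz.1
      positivity
  have b3 : ∀ z ∈ Icc 0 r, 0 ≤ α * z - α * β * z ^ 3 + α * K * z ^ 4 - A z := by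
    apply nonneg_of_second (φ1 := fun z => α - α * β * (3 * z ^ 2) + α * K * (4 * z ^ 3) - A1 z)
      (φ2 := fun z => - (α * β * (3 * (2 * z))) + α * K * (4 * (3 * z ^ 2)) - q * (z - b) * A z)
    · intro z
      have h1 := ((((hasDerivAt_id' z).const_mul α).sub
        ((hasDerivAt_pow 3 z).const_mul (α * β))).add ((hasDerivAt_pow 4 z).const_mul (α * K))).sub
        (hA z)
      exact h1.congr_deriv (by push_cast; ring)
    · intro z
      have h1 := (((((hasDerivAt_pow 2 z).const_mul 3).const_mul (α * β)).const_sub α).add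
        (((hasDerivAt_pow 3 z).const_mul 4).const_mul (α * K))).sub (hA1 z)
      exact h1.congr_deriv (by push_cast; ring)
    · simp [hA0]
    · simp [hα]
    · intro z hz
      have h1 := b2 z ⟨hz.1.le, hz.2.le⟩
      have hz1 := hz.1
      have h2 : 0 ≤ b - z := by linarith [hz.2]
      have hz11 : z ≤ 1 := by linarith [hz.2]
      have h3 : q * (b - z) * (A z - α * z + α * β * z ^ 3) ≥ 0 := by positivity
      have h4 : -(α * β * (3 * (2 * z))) + α * K * (4 * (3 * z ^ 2)) - q * (z - b) * A z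
          = q * (b - z) * (A z - α * z + α * β * z ^ 3) + α * z ^ 2 * (q * b * β * (1 - z) + q * β * z ^ 2) := by
        rw [hK, hβ]; ring
      rw [h4]
      have : 0 ≤ 1 - z := by linarith
      positivity
  -- the polynomial inequality
  have hR : ∀ z ∈ Ioo 0 (r / 2), 0 ≤ -1 + 2 * β + 4 * β * z + 4 * β * z ^ 2 +
      (2 * z + 1) * (2 * K * z + z ^ 2 * (β - K * z) ^ 2) := by
    intro z hz
    have hz1 := hz.1
    have hz2 := hz.2
    have h1 := hineq z ⟨hz1, by linarith⟩
    have h2 := b2 (2 * z) ⟨by linarith, by linarith⟩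
    have h3 := b3 z ⟨by linarith, by linarith⟩
    have h4 := hApos z ⟨hz1, by linarith⟩
    have h5 : A z ^ 2 ≤ (α * z - α * β * z ^ 3 + α * K * z ^ 4) ^ 2 := by
      apply pow_le_pow_left₀ h4.le; linarith
    have h6 : α * z * (z + 1) ^ 2 * (α * (2 * z) - α * β * (2 * z) ^ 3) ≤
        2 * (2 * z + 1) * (α * z - α * β * z ^ 3 + α * K * z ^ 4) ^ 2 := by
      calc α * z * (z + 1) ^ 2 * (α * (2 * z) - α * β * (2 * z) ^ 3)
          ≤ α * z * (z + 1) ^ 2 * A (2 * z) := by gcongr; linarith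
        _ ≤ 2 * (2 * z + 1) * A z ^ 2 := h1
        _ ≤ _ := by gcongr
    have h7 : 2 * (2 * z + 1) * (α * z - α * β * z ^ 3 + α * K * z ^ 4) ^ 2 -
        α * z * (z + 1) ^ 2 * (α * (2 * z) - α * β * (2 * z) ^ 3) =
        (2 * α ^ 2 * z ^ 4) * (-1 + 2 * β + 4 * β * z + 4 * β * z ^ 2 +
      (2 * z + 1) * (2 * K * z + z ^ 2 * (β - K * z) ^ 2)) := by ring
    have h8 : 0 < 2 * α ^ 2 * z ^ 4 := by positivity
    by_contra hneg
    push Not at hneg
    nlinarith [mul_pos_of_neg_of_neg (show -(2 * α ^ 2 * z ^ 4) < 0 by linarith) hneg]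
  have hcont : Continuous fun z : ℝ => -1 + 2 * β + 4 * β * z + 4 * β * z ^ 2 +
      (2 * z + 1) * (2 * K * z + z ^ 2 * (β - K * z) ^ 2) := by fun_prop
  have hlim := (hcont.tendsto 0).mono_left (nhdsWithin_le_nhds (s := Ioi (0 : ℝ)))
  have hev : ∀ᶠ z in 𝓝[>] (0 : ℝ), 0 ≤ -1 + 2 * β + 4 * β * z + 4 * β * z ^ 2 +
      (2 * z + 1) * (2 * K * z + z ^ 2 * (β - K * z) ^ 2) := by
    filter_upwards [Ioo_mem_nhdsGT (show (0 : ℝ) < r / 2 by linarith)] with z hz
    exact hR z hz
  have := ge_of_tendsto hlim hev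
  simp only [mul_zero, add_zero, sub_zero, zero_add, zero_pow (two_ne_zero), zero_mul] at this
  rw [hβ] at this
  linarith

end Pool.Agent.Work.MP_b46d52_pr
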