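import Mathlib
import Pool.Agent.Work.MP_b46d52_pr.Defs
import Pool.Agent.Work.MP_b46d52_pr.Airy

/-!
The two-sided Laplace transform of the factor function on its strip of convergence.
-/

open MeasureTheory Set Filter Topology ProbabilityTheory
open scoped ENNReal

namespace Pool.Agent.Work.MP_b46d52_pr

/-- The measure with density `g`. -/
noncomputable def mu (g : ℝ → ℝ) : Measure ℝ := volume.withDensity fun s => ENNReal.ofReal (g s)

lemma mem_expSet {g : ℝ → ℝ} (hg : Integrable g) (hpos : ∀ s, 0 < g s) (t : ℝ) :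
    t ∈ integrableExpSet id (mu g) ↔ Integrable fun s => Real.exp (t * s) * g s := by
  unfold integrableExpSet mu
  rw [mem_ofPred_eq, integrable_withDensity_iff_integrable_smul₀'
    hg.aestronglyMeasurable.aemeasurable.ennreal_ofReal (by simp)]
  apply integrable_congr
  refine Eventually.of_forall fun s => ?_
  simp only [id, smul_eq_mul]
  rw [ENNReal.toReal_ofReal (hpos s).le, mul_comm]

lemma complexMGF_mu {g : ℝ → ℝ} (hg : Integrable g) (hpos : ∀ s, 0 < g s) (z : ℂ) :
    complexMGF id (mu g) z = ∫ s : ℝ, Complex.exp (z * s) * (g s : ℂ) := by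
  unfold complexMGF mu
  rw [integral_withDensity_eq_integral_toReal_smul₀
    hg.aestronglyMeasurable.aemeasurable.ennreal_ofReal (by simp)]
  apply integral_congr_ae
  refine Eventually.of_forall fun s => ?_
  simp only [id]
  rw [ENNReal.toReal_ofReal (hpos s).le, Complex.real_smul, mul_comm]

lemma mgf_mu {g : ℝ → ℝ} (hg : Integrable g) (hpos : ∀ s, 0 < g s) (t : ℝ) :
    mgf id (mu g) t = ∫ s : ℝ, Real.exp (t * s) * g s := by
  unfold mgf mu
  rw [integral_withDensity_eq_integral_toReal_smul₀
    hg.aestronglyMeasurable.aemeasurable.ennreal_ofReal (by simp)]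
  apply integral_congr_ae
  refine Eventually.of_forall fun s => ?_
  simp only [id, smul_eq_mul]
  rw [ENNReal.toReal_ofReal (hpos s).le, mul_comm]

/-- `2^{-1/3}`. -/
noncomputable def hh : ℝ := (2 : ℝ) ^ (-(1 / 3) : ℝ)

/-- `2^{1/3}`. -/
noncomputable def kk : ℝ := (2 : ℝ) ^ (1 / 3 : ℝ)

lemma hh_pos : 0 < hh := Real.rpow_pos_of_pos (by norm_num) _

lemma kk_pos : 0 < kk := Real.rpow_pos_of_pos (by norm_num) _

lemma hh_cube : hh ^ 3 = 1 / 2 := by
  unfold hh
  rw [← Real.rpow_natCast, ← Real.rpow_mul (by norm_num)]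
  norm_num

lemma kk_cube : kk ^ 3 = 2 := by
  unfold kk
  rw [← Real.rpow_natCast, ← Real.rpow_mul (by norm_num)]
  norm_num

lemma hh_mul_kk : hh * kk = 1 := by
  unfold hh kk
  rw [← Real.rpow_add (by norm_num)]
  norm_num

/-- Analytic continuation of the Fourier identity to the strip. -/
lemma identity {g : ℝ → ℝ} (h : IsChernoffFactor g)
    (h0 : (0 : ℝ) ∈ interior (integrableExpSet id (mu g))) {z : ℂ}
    (hz : z.re ∈ interior (integrableExpSet id (mu g))) :
    complexMGF id (mu g) z * Ai (hh * z) = kk := by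
  set U : Set ℂ := {z | z.re ∈ interior (integrableExpSet id (mu g))} with hU
  have hUpre : IsPreconnected U :=
    (convex_integrableExpSet.interior.linear_preimage Complex.reLm).isPreconnected
  have hA1 : AnalyticOnNhd ℂ (complexMGF id (mu g)) U := analyticOnNhd_complexMGF
  have hA2 : AnalyticOnNhd ℂ (fun z : ℂ => Ai (hh * z)) U := by
    have : Differentiable ℂ fun z : ℂ => Ai (hh * z) :=
      differentiable_Ai.comp (differentiable_id.const_mul _)
    exact fun z _ => this.analyticAt z
  have hA : AnalyticOnNhd ℂ (fun z : ℂ => complexMGF id (mu g) z * Ai (hh * z)) U := hA1.mul hA2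
  have hB : AnalyticOnNhd ℂ (fun _ : ℂ => (kk : ℂ)) U := analyticOnNhd_const
  have hz0 : (0 : ℂ) ∈ U := by simpa [hU] using h0
  refine hA.eqOn_of_preconnected_of_frequently_eq hB hUpre hz0 ?_ hz
  -- equality along the imaginary axis near zero
  have hT : Tendsto (fun l : ℝ => Complex.I * l) (𝓝[≠] 0) (𝓝[≠] 0) := by
    rw [tendsto_nhdsWithin_iff]
    constructor
    · have : Continuous fun l : ℝ => Complex.I * (l : ℂ) := by fun_prop
      have h1 := this.tendsto 0
      simp only [Complex.ofReal_zero, mul_zero] at h1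
      exact h1.mono_left nhdsWithin_le_nhds
    · filter_upwards [self_mem_nhdsWithin] with l hl
      have : (l : ℂ) ≠ 0 := by exact_mod_cast hl
      simp [this]
  refine hT.frequently (Eventually.frequently ?_)
  have hcont : ContinuousAt (fun l : ℝ => Ai (hh * (Complex.I * l))) 0 := by
    apply Continuous.continuousAt
    exact differentiable_Ai.continuous.comp (by fun_prop)
  have hne : (fun l : ℝ => Ai (hh * (Complex.I * l))) 0 ≠ 0 := by
    simpa using Ai_zero_ne
  have hev := (hcont.eventually_ne hne).filter_mono (nhdsWithin_le_nhds (s := {(0 : ℝ)}ᶜ))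
  filter_upwards [hev] with l hl
  rw [complexMGF_mu h.integrable h.pos]
  have hf := h.fourier l
  rw [hf]
  have e1 : Complex.I * (((2 : ℝ) ^ (-(1 / 3) : ℝ) : ℝ) : ℂ) * (l : ℂ) = (hh : ℂ) * (Complex.I * l) := by
    unfold hh; ring
  rw [e1]
  change (kk : ℂ) / Ai (hh * (Complex.I * l)) * Ai (hh * (Complex.I * l)) = kk
  exact div_mul_cancel₀ _ hl

/-- On the real axis. -/
lemma identity_real {g : ℝ → ℝ} (h : IsChernoffFactor g)
    (h0 : (0 : ℝ) ∈ interior (integrableExpSet id (mu g))) {t : ℝ}
    (ht : t ∈ interior (integrableExpSet id (mu g))) :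
    (∫ s : ℝ, Real.exp (t * s) * g s) * Y (hh * t) = kk := by
  have := identity h h0 (z := (t : ℂ)) (by simpa using ht)
  rw [complexMGF_ofReal, mgf_mu h.integrable h.pos, ← Complex.ofReal_mul, Ai_ofReal] at this
  exact_mod_cast this

end Pool.Agent.Work.MP_b46d52_pr
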