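import Mathlib
import Pool.Agent.Work.MP_b46d52_pr.Defs
import Pool.Agent.Work.MP_b46d52_pr.Airy
import Pool.Agent.Work.MP_b46d52_pr.Local
import Pool.Agent.Work.MP_b46d52_pr.Ratio
import Pool.Agent.Work.MP_b46d52_pr.Integr
import Pool.Agent.Work.MP_b46d52_pr.CS
import Pool.Agent.Work.MP_b46d52_pr.Strip

/-!
Assembly: the factor function of Chernoff's density is not in `log(HM)`.
-/

open MeasureTheory Set Filter Topology ProbabilityTheory

namespace Pool.Agent.Work.MP_b46d52_pr

lemma D_exp {g : ℝ → ℝ} (hg : ∀ s, 0 < g s) (s : ℝ) : g (s + 1) = Real.exp (D g 1 s) * g s := by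
  unfold D
  rw [Real.exp_sub, Real.exp_log (hg _), Real.exp_log (hg _)]
  have := (hg s).ne'
  field_simp

lemma kk_lt : kk < 1.26 := by
  by_contra hne
  push Not at hne
  have h1 := kk_cube
  have h2 : (1.26 : ℝ) ^ 3 ≤ kk ^ 3 := pow_le_pow_left₀ (by norm_num) hne 3
  rw [h1] at h2
  norm_num at h2

/-- Not even the order two property holds. -/
theorem not_HM2 {g : ℝ → ℝ} (h : IsChernoffFactor g) :
    ¬ HM2 (fun x => g (Real.log x) / x) := by
  intro hH
  have hg := h.pos
  have hi := h.integrable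
  set S := integrableExpSet id (mu g) with hS
  have hmem : ∀ t, t ∈ S ↔ Integrable fun s => Real.exp (t * s) * g s := mem_expSet hi hg
  have hD := D_anti hH hg one_pos
  obtain ⟨sp, hsp⟩ := not_decreasing hi hg
  obtain ⟨sm, hsm⟩ := not_increasing hi hg
  have hDp : 0 < D g 1 sp := by
    unfold D; linarith [Real.log_lt_log (hg sp) hsp]
  have hDm : D g 1 sm < 0 := by
    unfold D; linarith [Real.log_lt_log (hg (sm + 1)) hsm]
  have right : ∀ l, 0 ≤ l → l < -D g 1 sm → l ∈ S := by
    intro l hl0 hl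
    rw [hmem]
    refine integrable_right hi hg (s0 := sm) (c := -D g 1 sm) ?_ hl0 hl
    intro s hs
    rw [D_exp hg, neg_neg]
    have := hD hs
    have := hg s
    gcongr
  have left : ∀ s0 l, l ≤ 0 → -D g 1 s0 < l → l ∈ S := by
    intro s0 l hl0 hl
    rw [hmem]
    refine integrable_left hi hg (s0 := s0) (c := D g 1 s0) ?_ hl0 hl
    intro s hs
    rw [D_exp hg, ← mul_assoc, ← Real.exp_add]
    have h1 := hD hs
    have h2 := hg s
    have h3 : 1 ≤ Real.exp (-D g 1 s0 + D g 1 s) := Real.one_le_exp (by linarith)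
    nlinarith
  have hint : ∀ s0 l, l ≤ 0 → -D g 1 s0 < l → l ∈ interior S := by
    intro s0 l hl0 hl
    rw [mem_interior]
    refine ⟨Ioo (-D g 1 s0) (-D g 1 sm), ?_, isOpen_Ioo, hl, by linarith⟩
    intro t ht
    rcases le_total t 0 with h0 | h0
    · exact left s0 t h0 ht.1
    · exact right t h0 ht.2
  have h0S : (0 : ℝ) ∈ interior S := hint sp 0 le_rfl (by linarith)
  -- the zero of the Airy function
  obtain ⟨x0, ⟨hx01, hx02⟩, hx0⟩ := exists_zero
  set l0 : ℝ := x0 * kk with hl0
  have hx0' : hh * l0 = x0 := by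
    rw [hl0]; linear_combination x0 * hh_mul_kk
  have hkk := kk_pos
  have hl0neg : l0 < 0 := mul_neg_of_neg_of_pos (by linarith) hkk
  have hDle : ∀ s, D g 1 s ≤ -l0 := by
    intro s
    by_contra hne
    push Not at hne
    have h1 := identity_real h h0S (hint s l0 hl0neg.le (by linarith))
    rw [hx0', hx0, mul_zero] at h1
    linarith
  have hbdd : BddAbove (range (D g 1)) := ⟨-l0, by rintro _ ⟨s, rfl⟩; exact hDle s⟩
  have hcs := fun z1 z2 => log_convex (z1 := z1) (z2 := z2) hH hg hbdd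
  have hDb : ∀ s, D g 1 s ≤ ⨆ s, D g 1 s := fun s => le_ciSup hbdd s
  have hsup : ∀ c, c < (⨆ s, D g 1 s) → ∃ s, c < D g 1 s := fun c hc => exists_lt_of_lt_ciSup hc
  have hbl : (⨆ s, D g 1 s) ≤ -l0 := ciSup_le hDle
  set b := ⨆ s, D g 1 s with hb
  have hb0 : 0 < b := hDp.trans_le (hDb sp)
  have hstrip : ∀ z ∈ Ioc 0 b, z - b ∈ interior S := by
    intro z hz
    obtain ⟨s, hs⟩ := hsup (b - z) (by linarith [hz.1])
    exact hint s (z - b) (by linarith [hz.2]) (by linarith)
  have hEint : ∀ z ∈ Ioc 0 b, Integrable fun s => Real.exp ((z - b) * s) * g s := fun z hz =>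
    (hmem _).1 (interior_subset (hstrip z hz))
  -- the functions A, A1
  set A : ℝ → ℝ := fun z => Y (hh * (z - b)) with hA
  set A1 : ℝ → ℝ := fun z => hh * Y1 (hh * (z - b)) with hA1
  have hlin : ∀ z, HasDerivAt (fun z => hh * (z - b)) hh z := fun z =>
    (((hasDerivAt_id' z).sub_const b).const_mul hh).congr_deriv (by ring)
  have hAd : ∀ z, HasDerivAt A (A1 z) z := fun z =>
    ((hasDerivAt_Y (hh * (z - b))).comp z (hlin z)).congr_deriv (by simp only [hA1]; ring)
  have hA1d : ∀ z, HasDerivAt A1 (hh ^ 3 * (z - b) * A z) z := fun z =>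
    (((hasDerivAt_Y1 (hh * (z - b))).comp z (hlin z)).const_mul hh).congr_deriv
      (by simp only [hA]; ring)
  have hEA : ∀ z ∈ Ioc 0 b, E g b z * A z = kk := fun z hz => identity_real h h0S (hstrip z hz)
  have hEpos : ∀ z ∈ Ioc 0 b, 0 < E g b z := by
    intro z hz
    have h1 : 0 ≤ E g b z := integral_nonneg fun s => (mul_pos (Real.exp_pos _) (hg s)).le
    rcases h1.eq_or_lt with h2 | h2
    · have := hEA z hz
      rw [← h2, zero_mul] at this
      linarith
    · exact h2
  have hApos : ∀ z ∈ Ioc 0 b, 0 < A z := by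
    intro z hz
    have h1 := hEA z hz
    have h2 := hEpos z hz
    by_contra hne
    push Not at hne
    nlinarith
  have hAcont : Continuous A := continuous_iff_continuousAt.2 fun z => (hAd z).continuousAt
  have hAtend : Tendsto A (𝓝[>] 0) (𝓝 (A 0)) := (hAcont.tendsto 0).mono_left nhdsWithin_le_nhds
  have hIoc : ∀ᶠ z in 𝓝[>] (0 : ℝ), z ∈ Ioc 0 b := Ioc_mem_nhdsGT hb0
  -- A 0 = 0
  set f : ℝ → ℝ := fun t => Real.exp (b * t) * g (-t) with hf
  have hfpos : ∀ t, 0 < f t := fun t => mul_pos (Real.exp_pos _) (hg _)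
  have hfmono : ∀ t, f t ≤ f (t + 1) := by
    intro t
    simp only [hf]
    have e1 : -t = -(t + 1) + 1 := by ring
    have e2 : g (-t) = Real.exp (D g 1 (-(t + 1))) * g (-(t + 1)) := by
      rw [e1]; exact D_exp hg _
    rw [e2, ← mul_assoc, ← Real.exp_add]
    have h1 := hDb (-(t + 1))
    have h2 := hg (-(t + 1))
    have h3 : b * t + D g 1 (-(t + 1)) ≤ b * (t + 1) := by linarith
    gcongr
  have hfloc : LocallyIntegrable f := by
    have h1 : LocallyIntegrable (fun t => g (-t)) := hi.comp_neg.locallyIntegrable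
    have h2 : Continuous fun t : ℝ => Real.exp (b * t) := by fun_prop
    rw [locallyIntegrable_iff]
    intro K hK
    exact (h1.integrableOn_isCompact hK).continuousOn_mul h2.continuousOn hK
  have hgrow := integral_growth hfmono hfloc
  have hκ0 : 0 < ∫ x in (0 : ℝ)..1, f x := by
    apply intervalIntegral.intervalIntegral_pos_of_pos _ hfpos (by norm_num)
    exact (hfloc.integrableOn_isCompact isCompact_uIcc).intervalIntegrable
  set κ0 := ∫ x in (0 : ℝ)..1, f x with hκ
  have hElow : ∀ (N : ℕ), ∀ z ∈ Ioc 0 b, Real.exp (-(z * N)) * (N * κ0) ≤ E g b z := by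
    intro N z hz
    have e1 : E g b z = ∫ t, Real.exp (-(z * t)) * f t := by
      unfold E
      rw [← integral_neg_eq_self]
      apply integral_congr_ae
      refine Eventually.of_forall fun t => ?_
      simp only [hf]
      rw [← mul_assoc, ← Real.exp_add]
      congr 2; ring
    have i1 : Integrable fun t => Real.exp (-(z * t)) * f t := by
      refine ((hEint z hz).comp_neg).congr (Eventually.of_forall fun t => ?_)
      simp only [hf]
      rw [← mul_assoc, ← Real.exp_add]
      congr 2; ring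
    rw [e1]
    have hN0 : (0 : ℝ) ≤ N := Nat.cast_nonneg N
    calc Real.exp (-(z * N)) * (N * κ0) ≤ Real.exp (-(z * N)) * ∫ x in (0 : ℝ)..N, f x := by
          gcongr; exact hgrow N
      _ = ∫ x in (0 : ℝ)..N, Real.exp (-(z * N)) * f x := by
          rw [intervalIntegral.integral_const_mul]
      _ ≤ ∫ x in (0 : ℝ)..N, Real.exp (-(z * x)) * f x := by
          apply intervalIntegral.integral_mono_on hN0
          · exact ((hfloc.integrableOn_isCompact isCompact_uIcc).intervalIntegrable).const_mul _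
          · exact i1.intervalIntegrable
          · intro x hx
            have h1 := hfpos x
            have h2 : z * x ≤ z * N := mul_le_mul_of_nonneg_left hx.2 hz.1.le
            gcongr
      _ ≤ ∫ t, Real.exp (-(z * t)) * f t := by
          rw [intervalIntegral.integral_of_le hN0]
          exact setIntegral_le_integral i1 (Eventually.of_forall fun t =>
            (mul_pos (Real.exp_pos _) (hfpos t)).le)
  have hA0le : ∀ N : ℕ, A 0 * (N * κ0) ≤ kk := by
    intro N
    have hc : Continuous fun z : ℝ => A z * (Real.exp (-(z * N)) * (N * κ0)) := by fun_prop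
    have ht := (hc.tendsto 0).mono_left (nhdsWithin_le_nhds (s := Ioi (0 : ℝ)))
    have hev : ∀ᶠ z in 𝓝[>] (0 : ℝ), A z * (Real.exp (-(z * N)) * (N * κ0)) ≤ kk := by
      filter_upwards [hIoc] with z hz
      calc A z * (Real.exp (-(z * N)) * (N * κ0)) ≤ A z * E g b z :=
            mul_le_mul_of_nonneg_left (hElow N z hz) (hApos z hz).le
        _ = kk := by rw [mul_comm]; exact hEA z hz
    have := le_of_tendsto ht hev
    simpa using this
  have hA0nonneg : 0 ≤ A 0 := by
    refine ge_of_tendsto hAtend ?_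
    filter_upwards [hIoc] with z hz
    exact (hApos z hz).le
  have hA0 : A 0 = 0 := by
    by_contra hne
    have hpos : 0 < A 0 := lt_of_le_of_ne hA0nonneg (Ne.symm hne)
    obtain ⟨N, hN⟩ := exists_nat_gt (kk / (A 0 * κ0))
    rw [div_lt_iff₀ (by positivity)] at hN
    have := hA0le N
    nlinarith
  -- α > 0
  have hslope : Tendsto (fun z => A z / z) (𝓝[>] 0) (𝓝 (A1 0)) := by
    have h1 := (hAd 0).tendsto_slope.mono_left (nhdsWithin_mono 0 (fun x (hx : (0 : ℝ) < x) =>
      (ne_of_gt hx : x ≠ 0)) : 𝓝[>] (0 : ℝ) ≤ 𝓝[≠] 0)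
    refine h1.congr (fun z => ?_)
    rw [slope_def_field, hA0, sub_zero, sub_zero]
  have hαnonneg : 0 ≤ A1 0 := by
    refine ge_of_tendsto hslope ?_
    filter_upwards [hIoc] with z hz
    exact (div_pos (hApos z hz) hz.1).le
  have hα : 0 < A1 0 := by
    refine lt_of_le_of_ne hαnonneg (Ne.symm ?_)
    simp only [hA1]
    have hle : hh * (0 - b) ≤ 0 := by
      have := hh_pos
      nlinarith
    exact mul_ne_zero hh_pos.ne' (simple_zero hle hA0)
  -- the inequality
  have hineq : ∀ z ∈ Ioo 0 (b / 2), A1 0 * z * (z + 1) ^ 2 * A (2 * z) ≤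
      2 * (2 * z + 1) * A z ^ 2 := by
    intro z hz
    have hzb : z ∈ Ioc 0 b := ⟨hz.1, by linarith [hz.2]⟩
    have hfin : ∀ᶠ z1 in 𝓝[>] (0 : ℝ), (z * (z + 1)) ^ 2 * (A z1 / z1) * A (2 * z - z1) ≤
        (z1 + 1) * (2 * z - z1) * (2 * z - z1 + 1) * A z ^ 2 := by
      filter_upwards [Ioo_mem_nhdsGT hz.1] with z1 hz1
      have hz1b : z1 ∈ Ioc 0 b := ⟨hz1.1, by linarith [hz1.2, hz.2]⟩
      have hz2b : 2 * z - z1 ∈ Ioc 0 b := ⟨by linarith [hz1.2, hz1.1], by linarith [hz1.1, hz.2]⟩
      have hmid : (z1 + (2 * z - z1)) / 2 = z := by ring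
      have key := hcs z1 (2 * z - z1) hz1.1 (hEpos z1 hz1b) (hEint z1 hz1b) (hEint _ hz2b)
        (by rw [hmid]; exact hEint z hzb)
      rw [hmid] at key
      have a1 := hApos z1 hz1b
      have a2 := hApos _ hz2b
      have a := hApos z hzb
      have e1 : E g b z1 = kk / A z1 := by rw [eq_div_iff a1.ne']; exact hEA z1 hz1b
      have e2 : E g b (2 * z - z1) = kk / A (2 * z - z1) := by
        rw [eq_div_iff a2.ne']; exact hEA _ hz2b
      have e : E g b z = kk / A z := by rw [eq_div_iff a.ne']; exact hEA z hzb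
      rw [e1, e2, e] at key
      have hz10 := hz1.1
      have hL : (z * (z + 1)) ^ 2 * (A z1 / z1) * A (2 * z - z1) =
          (z * (z + 1) * (kk / A z)) ^ 2 * (A z ^ 2 * A z1 * A (2 * z - z1) / (z1 * kk ^ 2)) := by
        field_simp
      have hR : (z1 + 1) * (2 * z - z1) * (2 * z - z1 + 1) * A z ^ 2 =
          (z1 * (z1 + 1) * (kk / A z1) * ((2 * z - z1) * (2 * z - z1 + 1) * (kk / A (2 * z - z1)))) *
          (A z ^ 2 * A z1 * A (2 * z - z1) / (z1 * kk ^ 2)) := by
        field_simp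
      rw [hL, hR]
      apply mul_le_mul_of_nonneg_right key
      positivity
    have t1 : Tendsto (fun z1 => (z * (z + 1)) ^ 2 * (A z1 / z1) * A (2 * z - z1)) (𝓝[>] 0)
        (𝓝 ((z * (z + 1)) ^ 2 * A1 0 * A (2 * z - 0))) := by
      have hc : Tendsto (fun z1 => A (2 * z - z1)) (𝓝[>] 0) (𝓝 (A (2 * z - 0))) := by
        have : Continuous fun z1 => A (2 * z - z1) := by fun_prop
        exact (this.tendsto 0).mono_left nhdsWithin_le_nhds
      exact (hslope.const_mul _).mul hc
    have t2 : Tendsto (fun z1 => (z1 + 1) * (2 * z - z1) * (2 * z - z1 + 1) * A z ^ 2) (𝓝[>] 0)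
        (𝓝 ((0 + 1) * (2 * z - 0) * (2 * z - 0 + 1) * A z ^ 2)) := by
      have : Continuous fun z1 : ℝ => (z1 + 1) * (2 * z - z1) * (2 * z - z1 + 1) * A z ^ 2 := by
        fun_prop
      exact (this.tendsto 0).mono_left nhdsWithin_le_nhds
    have := le_of_tendsto_of_tendsto t1 t2 hfin
    rw [sub_zero] at this
    have hz0 := hz.1
    have h2 : z * (A1 0 * z * (z + 1) ^ 2 * A (2 * z)) ≤ z * (2 * (2 * z + 1) * A z ^ 2) := by
      linarith
    exact le_of_mul_le_mul_left h2 hz0
  have hh3 : 0 < hh ^ 3 := by rw [hh_cube]; norm_num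
  have fin := local_contra hAd hA1d hh3 hb0 hb0 hA0 rfl hα
    (fun z hz => hApos z ⟨hz.1, hz.2.le⟩) hineq
  rw [hh_cube] at fin
  -- numerical contradiction
  have hπ := Real.pi_lt_d4
  have hs2 : (1.414 : ℝ) < √2 := by
    rw [Real.lt_sqrt (by norm_num)]; norm_num
  have hq : Real.pi / √2 < 2.23 := by
    rw [div_lt_iff₀ (by linarith)]
    nlinarith
  have hk := kk_lt
  have h1 : -l0 = (-x0) * kk := by rw [hl0]; ring
  have h2 : -x0 ≤ 4.23 := by linarith
  have h3 : -l0 < 6 := by
    rw [h1]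
    nlinarith
  linarith

/-- The factor function is not in `log(HM_∞)`. -/
theorem not_logHM {g : ℝ → ℝ} (h : IsChernoffFactor g) : ¬ LogHM g := fun hL =>
  not_HM2 h hL.2.2.2.hm2

end Pool.Agent.Work.MP_b46d52_pr
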